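import Pool.Agent.X306.MZ.Uni
import Pool.Agent.X306.MT.Nor

set_option autoImplicit false
set_option linter.unusedVariables false
set_option linter.unusedSectionVars false
set_option linter.unusedSimpArgs false

/-!
# Rationality of the Lie algebra and of functionals
-/

open Matrix

noncomputable section

namespace Pool.Agent.X306.MZ

open Pool.Agent.TH127.PT Pool.Agent.TH119.MX Pool.Agent.TH119.DR Pool.Agent.Y123.ST
open Pool.Agent.X306.MT

variable {B S : Type} [Fintype B] [DecidableEq B] {d : B → ℕ} {N : S → Matrix B B ℂ} {κ : S → ℕ} {K : Subfield ℂ}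

/-- matrices with entries in `K` -/
def InK (K : Subfield ℂ) (M : Matrix B B ℂ) : Prop := ∀ b b', M b b' ∈ K

theorem InK.sub {M M' : Matrix B B ℂ} (h : InK K M) (h' : InK K M') : InK K (M - M') :=
  fun b b' => K.sub_mem (h b b') (h' b b')

theorem Dl_K : InK K (Dl d) := by
  intro b b'
  unfold Dl
  rw [diagonal_apply]
  split_ifs
  · exact natCast_mem K (d b)
  · exact K.zero_mem

theorem qq_map (hA : ∀ s, InK K (N s)) (k : ℕ) {x : Matrix B B ℂ} (hx : x ∈ qq N k) (f : ℂ →ₗ[K] ℂ) :
    x.map f ∈ qq N k := by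
  have hadd : ∀ (f : ℂ →ₗ[K] ℂ) (x y : Matrix B B ℂ), (x + y).map f = x.map f + y.map f := by
    intro f x y
    ext b b'
    simp only [Matrix.map_apply, Matrix.add_apply, map_add]
  have hz : ∀ (f : ℂ →ₗ[K] ℂ), (0 : Matrix B B ℂ).map f = 0 := by
    intro f
    ext b b'
    exact map_zero f
  have hsm : ∀ (f : ℂ →ₗ[K] ℂ) (a : ℂ) (x : Matrix B B ℂ), (a • x).map f = x.map (f.comp (LinearMap.mulLeft K a)) := by
    intro f a x
    ext b b'
    rfl
  induction k generalizing x f with
  | zero =>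
    have h1 : x ∈ Submodule.span ℂ (Set.range N) := hx
    clear hx
    induction h1 using Submodule.span_induction generalizing f with
    | mem x hx =>
      obtain ⟨s, rfl⟩ := hx
      have h2 : (N s).map f = f 1 • N s := by
        ext b b'
        have h3 := lin_mul f (hA s b b') 1
        rw [mul_one] at h3
        rw [Matrix.map_apply, Matrix.smul_apply, smul_eq_mul, h3, mul_comm]
      rw [h2]
      exact Submodule.smul_mem _ _ (Submodule.subset_span ⟨s, rfl⟩)
    | zero =>
      rw [hz]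
      exact Submodule.zero_mem _
    | add x y _ _ h1 h2 =>
      rw [hadd]
      exact Submodule.add_mem _ (h1 f) (h2 f)
    | smul a x _ h1 =>
      rw [hsm]
      exact h1 _
  | succ k ih =>
    have h1 : x ∈ Submodule.span ℂ {z | ∃ s, ∃ y ∈ qq N k, z = N s * y - y * N s} := hx
    clear hx
    induction h1 using Submodule.span_induction generalizing f with
    | mem x hx =>
      obtain ⟨s, y, hy, rfl⟩ := hx
      have h2 : (N s * y - y * N s).map f = N s * y.map f - y.map f * N s := by
        ext b b'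
        simp only [Matrix.map_apply, Matrix.sub_apply, Matrix.mul_apply, map_sub, map_sum]
        congr 1
        · exact Finset.sum_congr rfl fun c _ => lin_mul f (hA s b c) _
        · exact Finset.sum_congr rfl fun c _ => lin_mul' f (hA s c b') _
      rw [h2]
      exact qq_step s (ih hy f)
    | zero =>
      rw [hz]
      exact Submodule.zero_mem _
    | add x y _ _ h1 h2 =>
      rw [hadd]
      exact Submodule.add_mem _ (h1 f) (h2 f)
    | smul a x _ h1 =>
      rw [hsm]
      exact h1 _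

theorem FF_map (hA : ∀ s, InK K (N s)) (j : ℕ) {x : Matrix B B ℂ} (hx : x ∈ FF N j) (f : ℂ →ₗ[K] ℂ) :
    x.map f ∈ FF N j :=
  FF_ind (p := fun x => x.map f ∈ FF N j) (fun i hi x hx => qq_FF hi (qq_map hA i hx f))
    (by
      have h2 : (0 : Matrix B B ℂ).map f = 0 := by
        ext b b'
        exact map_zero f
      rw [h2]
      exact Submodule.zero_mem _)
    (fun x y h1 h2 => by
      have h3 : (x + y).map f = x.map f + y.map f := by
        ext b b'
        simp only [Matrix.map_apply, Matrix.add_apply, map_add]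
      rw [h3]
      exact Submodule.add_mem _ h1 h2) hx

theorem nn_map (hA : ∀ s, InK K (N s)) {x : Matrix B B ℂ} (hx : x ∈ nn N) (f : ℂ →ₗ[K] ℂ) :
    x.map f ∈ nn N := by
  rw [← FF_zero] at hx ⊢
  exact FF_map hA 0 hx f

/-- an automorphism over `K` -/
theorem nn_aut (hA : ∀ s, InK K (N s)) {x : Matrix B B ℂ} (hx : x ∈ nn N) {σ : ℂ ≃+* ℂ} (hσ : ∀ x ∈ K, σ x = x) :
    x.map σ ∈ nn N := by
  let f : ℂ →ₗ[K] ℂ :=
    { toFun := σ
      map_add' := map_add σ
      map_smul' := fun a z => by
        change σ ((a : ℂ) * z) = (a : ℂ) * σ z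
        rw [map_mul, hσ _ a.2] }
  exact nn_map hA hx f

/-- the functional with given coefficients -/
def fn (c : Matrix B B ℂ) : Matrix B B ℂ →ₗ[ℂ] ℂ where
  toFun X := ∑ b, ∑ b', c b b' * X b b'
  map_add' X Y := by
    simp only [Matrix.add_apply, mul_add, Finset.sum_add_distrib]
  map_smul' a X := by
    simp only [Matrix.smul_apply, smul_eq_mul, RingHom.id_apply, Finset.mul_sum]
    refine Finset.sum_congr rfl fun b _ => Finset.sum_congr rfl fun b' _ => ?_
    ring

theorem fn_apply (c X : Matrix B B ℂ) : fn c X = ∑ b, ∑ b', c b b' * X b b' := rfl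

theorem fn_K {c : Matrix B B ℂ} (hc : InK K c) {X : Matrix B B ℂ} (hX : InK K X) : fn c X ∈ K :=
  K.sum_mem fun b _ => K.sum_mem fun b' _ => K.mul_mem (hc b b') (hX b b')

theorem fn_D {c : Matrix B B ℂ} (hc : InK K c) (D : Derivation K ℂ ℂ) (X : Matrix B B ℂ) :
    fn c (X.map D) = D (fn c X) := by
  rw [fn_apply, fn_apply, map_sum]
  refine Finset.sum_congr rfl fun b _ => ?_
  rw [map_sum]
  refine Finset.sum_congr rfl fun b' _ => ?_
  have h1 : D (c b b') = 0 := D.map_algebraMap (⟨c b b', hc b b'⟩ : K)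
  rw [Derivation.leibniz, h1, smul_zero, add_zero, smul_eq_mul]
  rfl

theorem fn_aut {c : Matrix B B ℂ} (hc : InK K c) {σ : ℂ ≃+* ℂ} (hσ : ∀ x ∈ K, σ x = x) (X : Matrix B B ℂ) :
    fn c (X.map σ) = σ (fn c X) := by
  rw [fn_apply, fn_apply, map_sum]
  refine Finset.sum_congr rfl fun b _ => ?_
  rw [map_sum]
  refine Finset.sum_congr rfl fun b' _ => ?_
  rw [map_mul, hσ _ (hc b b')]
  rfl

/-- coefficients in degree `k` -/
def Supp (d : B → ℕ) (k : ℕ) (c : Matrix B B ℂ) : Prop := ∀ b b', d b' ≠ d b + k → c b b' = 0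

theorem fn_La {k : ℕ} {c : Matrix B B ℂ} (hc : Supp d k c) {μ : ℂ} (hμ : μ ≠ 0) (X : Matrix B B ℂ) :
    fn c (La d μ * X * La d μ⁻¹) = (μ ^ k)⁻¹ * fn c X := by
  rw [La_em hμ, fn_apply, fn_apply, Finset.mul_sum]
  refine Finset.sum_congr rfl fun b _ => ?_
  rw [Finset.mul_sum]
  refine Finset.sum_congr rfl fun b' _ => ?_
  rw [em_apply]
  by_cases h : d b' = d b + k
  · rw [h]
    have h1 : -(((d b + k : ℕ) : ℤ) - (d b : ℤ)) = -(k : ℤ) := by
      push_cast
      ring
    rw [h1, _root_.zpow_neg, zpow_natCast]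
    ring
  · rw [hc b b' h]
    ring

theorem fn_pr {k : ℕ} {c : Matrix B B ℂ} (hc : Supp d k c) (X : Matrix B B ℂ) : fn c (pr d k X) = fn c X := by
  rw [fn_apply, fn_apply]
  refine Finset.sum_congr rfl fun b _ => Finset.sum_congr rfl fun b' _ => ?_
  rw [pr_apply]
  split_ifs with h
  · rfl
  · rw [hc b b' h, zero_mul, zero_mul]

/-- functionals over `K` with nonzero value -/
theorem exists_fK {c : ℂ} (hc : c ≠ 0) : ∃ f : ℂ →ₗ[K] ℂ, (∀ z, f z ∈ K) ∧ f c = 1 := by
  obtain ⟨g, hg⟩ : ∃ g : ℂ →ₗ[K] K, g c ≠ 0 := by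
    by_contra hcon
    push Not at hcon
    exact hc ((Module.forall_dual_apply_eq_zero_iff K c).1 hcon)
  refine ⟨(Algebra.linearMap K ℂ).comp ((g c)⁻¹ • g), fun z => (((g c)⁻¹ • g) z).2, ?_⟩
  change (((g c)⁻¹ * g c : K) : ℂ) = 1
  rw [inv_mul_cancel₀ hg]
  rfl

/-- a rational functional which separates a rational matrix of degree `k` from a rational graded subspace -/
theorem exists_fn {V : Submodule ℂ (Matrix B B ℂ)} (hVf : ∀ (f : ℂ →ₗ[K] ℂ), ∀ X ∈ V, X.map f ∈ V)
    (hVg : ∀ x ∈ V, em d (fun z => (z : ℂ)) x ∈ V) {k : ℕ} {M : Matrix B B ℂ} (hM : InK K M) (hMk : pr d k M = M)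
    (hMV : M ∉ V) : ∃ c : Matrix B B ℂ, InK K c ∧ Supp d k c ∧ (∀ v ∈ V, fn c v = 0) ∧ fn c M ≠ 0 := by
  classical
  obtain ⟨ψ, h1, h2⟩ := Submodule.exists_le_ker_of_notMem hMV
  obtain ⟨f, hf1, hf2⟩ := exists_fK (K := K) h1
  set c : Matrix B B ℂ := Matrix.of fun b b' => f (ψ (pr d k (Matrix.single b b' 1))) with hc
  have hcK : InK K c := fun b b' => hf1 _
  have hψ : ∀ X : Matrix B B ℂ, InK K X → fn c X = f (ψ (pr d k X)) := by
    intro X hX
    have h3 : pr d k X = ∑ b, ∑ b', X b b' • pr d k (Matrix.single b b' 1) := by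
      conv_lhs => rw [Matrix.matrix_eq_sum_single X]
      rw [map_sum]
      refine Finset.sum_congr rfl fun b _ => ?_
      rw [map_sum]
      refine Finset.sum_congr rfl fun b' _ => ?_
      have h2 : Matrix.single b b' (X b b') = X b b' • Matrix.single b b' (1 : ℂ) := by
        rw [Matrix.smul_single, smul_eq_mul, mul_one]
      rw [h2, map_smul]
    rw [h3, map_sum, map_sum, fn_apply]
    refine Finset.sum_congr rfl fun b _ => ?_
    rw [map_sum, map_sum]
    refine Finset.sum_congr rfl fun b' _ => ?_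
    rw [map_smul, smul_eq_mul, lin_mul f (hX b b'), mul_comm]
    rfl
  refine ⟨c, hcK, fun b b' h => ?_, fun v hv => ?_, ?_⟩
  · have h3 : pr d k (Matrix.single b b' (1 : ℂ)) = 0 := by
      ext a a'
      rw [pr_apply]
      split_ifs with h4
      · rw [Matrix.single_apply_of_ne]
        · rfl
        · rintro ⟨rfl, rfl⟩
          exact h h4
      · rfl
    change f (ψ (pr d k (Matrix.single b b' 1))) = 0
    rw [h3, map_zero, map_zero]
  · have h3 := mat_coords V hVf hv
    clear hv
    induction h3 using Submodule.span_induction with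
    | mem v hv =>
      rw [hψ v hv.2, show ψ (pr d k v) = 0 from h2 (pr_stable hVg k hv.1), map_zero]
    | zero => exact map_zero _
    | add x y _ _ h3 h4 => rw [map_add, h3, h4, add_zero]
    | smul a x _ h3 => rw [map_smul, h3, smul_zero]
  · rw [hψ M hM, hMk, hf2]
    exact one_ne_zero

/-- the constants of all derivations over `K` -/
theorem alg_of_der {x : ℂ} (hx : ∀ D : Derivation K ℂ ℂ, D x = 0) : IsAlgebraic K x := by
  by_contra h
  obtain ⟨D, hD⟩ := Pool.Agent.W516.DR.exists_derivation (K := K) (L := ℂ) (x := x) h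
  exact hD (hx D)

/-- algebraic elements of a rational function field are constants -/
theorem mem_of_adjoin {w y : ℂ} (hw : Transcendental K w) (hy : IsAlgebraic K y)
    (h : y ∈ IntermediateField.adjoin K {w}) : y ∈ K := by
  obtain ⟨P, Q, hPQ⟩ := (IntermediateField.mem_adjoin_simple_iff K y).1 h
  by_cases hQ0 : Polynomial.aeval w Q = 0
  · rw [hPQ, hQ0, div_zero]
    exact K.zero_mem
  have hQ : Q ≠ 0 := by
    rintro rfl
    exact hQ0 (map_zero _)
  -- `w` is transcendental over `K(y)`
  let F := IntermediateField.adjoin K {y}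
  have hF : Algebra.IsAlgebraic K F := IntermediateField.isAlgebraic_adjoin_simple hy.isIntegral
  have hwF : Transcendental F w := by
    intro hcon
    have h1 : IsAlgebraic K w := hcon.restrictScalars K
    exact hw h1
  set y' : F := ⟨y, IntermediateField.mem_adjoin_simple_self K y⟩ with hy'
  have h1 : Polynomial.aeval w (P.map (algebraMap K F) - Polynomial.C y' * Q.map (algebraMap K F)) = 0 := by
    rw [map_sub, map_mul, Polynomial.aeval_map_algebraMap, Polynomial.aeval_map_algebraMap, Polynomial.aeval_C]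
    change Polynomial.aeval w P - y * Polynomial.aeval w Q = 0
    rw [hPQ, div_mul_cancel₀ _ hQ0, sub_self]
  have h2 : P.map (algebraMap K F) - Polynomial.C y' * Q.map (algebraMap K F) = 0 := by
    by_contra hne
    exact hwF ⟨_, hne, h1⟩
  obtain ⟨n, hn⟩ : ∃ n, Q.coeff n ≠ 0 := by
    by_contra hcon
    push Not at hcon
    exact hQ (Polynomial.ext hcon)
  have h3 := congrArg (fun p => p.coeff n) h2
  simp only [Polynomial.coeff_sub, Polynomial.coeff_C_mul, Polynomial.coeff_map, Polynomial.coeff_zero] at h3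
  have h4 := congrArg (fun z : F => (z : ℂ)) h3
  change (P.coeff n : ℂ) - y * (Q.coeff n : ℂ) = 0 at h4
  have hn' : ((Q.coeff n : K) : ℂ) ≠ 0 := fun h => hn (Subtype.ext h)
  have h5 : y = (P.coeff n : ℂ) / (Q.coeff n : ℂ) := by
    rw [eq_div_iff hn']
    linear_combination -h4
  rw [h5]
  exact K.div_mem (P.coeff n).2 (Q.coeff n).2

end Pool.Agent.X306.MZ
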