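import Pool.Agent.X306.MZ.Gr

set_option autoImplicit false
set_option linter.unusedVariables false
set_option linter.unusedSectionVars false
set_option linter.unusedSimpArgs false

/-!
# Products of exponentials
-/

open Matrix Set

noncomputable section

namespace Pool.Agent.X306.MZ

open Pool.Agent.X306.MT

variable {B S : Type} [Fintype B] [DecidableEq B] {d : B → ℕ} {N : S → Matrix B B ℂ} {κ : S → ℕ}

theorem cu_FF {X Y : Matrix B B ℂ} (hX : X ∈ nn N) (hY : Y ∈ nn N) {k : ℕ} (hk : 2 ≤ k) : cu X Y k ∈ FF N 1 := by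
  obtain ⟨j, rfl⟩ := Nat.exists_eq_add_of_le' hk
  have h1 := cu_succ X Y (j + 1)
  rw [cw_succ, Matrix.mul_zero, add_zero] at h1
  have h2 := nn_br1 hX (cu_mem hX hY (j + 1))
  rw [← h1] at h2
  have h3 : ((j + 1 + 1 : ℕ) : ℂ) ≠ 0 := Nat.cast_ne_zero.2 (Nat.succ_ne_zero _)
  have h4 := (FF N 1).smul_mem ((j + 1 + 1 : ℕ) : ℂ)⁻¹ h2
  rwa [smul_smul, inv_mul_cancel₀ h3, one_smul] at h4

theorem cu_one (X Y : Matrix B B ℂ) : cu X Y 1 = Y := by
  have h1 := cu_succ X Y 0
  rw [cu_zero, Matrix.mul_zero, Matrix.zero_mul, sub_zero, zero_add, cw_zero, Matrix.mul_one] at h1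
  simpa using h1

theorem dx_mem' (hN : Pos d N) {X Y : Matrix B B ℂ} (hX : X ∈ nn N) (hY : Y ∈ nn N) :
    dx d X Y * ex d (-X) ∈ nn N ∧ dx d X Y * ex d (-X) - Y ∈ FF N 1 := by
  have hX1 := nn_pos hN hX
  have hY1 := nn_pos hN hY
  have h1 : dx d X Y * ex d (-X) = ∑ k ∈ Finset.range (2 * top d), cu X Y k := by
    unfold dx ex cu
    rw [sum_conv (fun k hk => Ge_top hk (ed_Ge hX1 hY1 k)) (fun k hk => ee_top ((Ge d 1).neg_mem hX1) hk)]
  constructor
  · rw [h1]
    exact (nn N).sum_mem fun k _ => cu_mem hX hY k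
  · rw [h1]
    have h0 : 0 < top d := Nat.succ_pos _
    have h2 : 2 * top d = (2 * top d - 2) + 1 + 1 := by omega
    rw [h2, Finset.sum_range_succ', Finset.sum_range_succ', cu_zero, cu_one, add_zero, add_sub_cancel_right]
    exact (FF N 1).sum_mem fun k _ => cu_FF hX hY (by omega)

theorem pr_pr {j k : ℕ} (h : j ≠ k) (x : Matrix B B ℂ) : pr d j (pr d k x) = 0 := by
  ext b b'
  rw [pr_apply, pr_apply]
  split_ifs with h1 h2
  · exact absurd (by omega) h
  · rfl
  · rfl

theorem pr_self (k : ℕ) (x : Matrix B B ℂ) : pr d k (pr d k x) = pr d k x := by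
  ext b b'
  rw [pr_apply, pr_apply]
  split_ifs with h1
  · rfl
  · rfl

/-- the exponential of a sum with a small summand -/
theorem ex_add_small {Z r : Matrix B B ℂ} (hZ1 : Z ∈ Ge d 1) {k : ℕ} (hr1 : r ∈ Ge d (k + 1)) :
    ex d (-(Z + r)) - ex d (-Z) + r ∈ Ge d (k + 1 + 1) := by
  have hpow : ∀ n : ℕ, (-(Z + r)) ^ n - (-Z) ^ n + (if n = 1 then r else 0) ∈ Ge d (k + 1 + 1) := by
    intro n
    induction n with
    | zero =>
      rw [pow_zero, pow_zero, sub_self, if_neg (by omega), add_zero]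
      exact (Ge d _).zero_mem
    | succ n ih =>
      rcases n with _ | n
      · rw [zero_add, pow_one, pow_one, if_pos rfl]
        have h10 : -(Z + r) - -Z + r = 0 := by abel
        rw [h10]
        exact (Ge d _).zero_mem
      · rw [if_neg (by omega), add_zero]
        have h10 : (-(Z + r)) ^ (n + 1 + 1) - (-Z) ^ (n + 1 + 1) =
            ((-(Z + r)) ^ (n + 1) - (-Z) ^ (n + 1)) * (-(Z + r)) - (-Z) ^ (n + 1) * r := by
          rw [pow_succ _ (n + 1), pow_succ (-Z) (n + 1)]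
          simp only [Matrix.mul_add, Matrix.mul_neg, Matrix.sub_mul, neg_add, mul_neg, mul_add]
          abel
        rw [h10]
        have h11 : (-(Z + r)) ^ (n + 1) - (-Z) ^ (n + 1) ∈ Ge d (k + 1) := by
          have h12 := (Ge d (k + 1)).sub_mem (Ge_mono (Nat.le_succ _) ih) (show (if n + 1 = 1 then r else 0) ∈
            Ge d (k + 1) by
              split_ifs
              · exact hr1
              · exact (Ge d _).zero_mem)
          rwa [add_sub_cancel_right] at h12
        refine (Ge d _).sub_mem ?_ ?_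
        · exact Ge_mul h11 ((Ge d 1).neg_mem ((Ge d 1).add_mem hZ1 (Ge_mono (by omega) hr1)))
        · have h12 := Ge_mul (Ge_pow ((Ge d 1).neg_mem hZ1) (n + 1)) hr1
          exact Ge_mono (by rw [mul_one]; omega) h12
  have hee : ∀ n : ℕ, ee (-(Z + r)) n - ee (-Z) n + (if n = 1 then r else 0) ∈ Ge d (k + 1 + 1) := by
    intro n
    have h10 := (Ge d (k + 1 + 1)).smul_mem ((n.factorial : ℂ))⁻¹ (hpow n)
    refine (congrArg (· ∈ Ge d (k + 1 + 1)) ?_).mp h10
    unfold ee
    rw [smul_add, smul_sub]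
    congr 1
    split_ifs with h11
    · rw [h11, Nat.factorial_one, Nat.cast_one, inv_one, one_smul]
    · rw [smul_zero]
  have h10 := (Ge d (k + 1 + 1)).sum_mem (t := Finset.range (top d)) fun n _ => hee n
  rw [Finset.sum_add_distrib, Finset.sum_sub_distrib, Finset.sum_ite_eq'] at h10
  by_cases h11 : 1 ∈ Finset.range (top d)
  · rw [if_pos h11] at h10
    exact h10
  · rw [if_neg h11, add_zero] at h10
    have h12 : r = 0 := Ge_top (d := d) (k := k + 1) (by
      rw [Finset.mem_range] at h11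
      omega) hr1
    rw [h12] at h10 ⊢
    simp only [add_zero] at h10 ⊢
    exact h10

/-- the approximate solutions -/
theorem approxG (hN : Pos d N) (hκ : Homg d κ N) {F A : ℝ → Matrix B B ℂ} {ℓ₀ : Matrix B B ℂ} (hℓ₀ : ℓ₀ ∈ nn N)
    (hA : ∀ t ∈ Icc (0 : ℝ) 1, A t ∈ nn N) (hF : HD F fun t => F t * A t) (hF0 : F 0 = ex d ℓ₀) (k : ℕ) :
    ∃ Z Z' : ℝ → Matrix B B ℂ, HD Z Z' ∧ Z 0 = ℓ₀ ∧ (∀ t ∈ Icc (0 : ℝ) 1, Z t ∈ nn N ∧ Z' t ∈ nn N ∧
      ex d (-Z t) * F t - 1 ∈ Ge d (k + 1) ∧ ∀ j ≤ k, pr d j (Z' t - A t) ∈ FF N 1) := by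
  induction k with
  | zero =>
    refine ⟨fun _ => ℓ₀, fun _ => 0, HD.const ℓ₀, rfl, fun t ht => ⟨hℓ₀, (nn N).zero_mem, ?_, fun j hj => ?_⟩⟩
    · set G : ℝ → Matrix B B ℂ := fun t => ex d (-ℓ₀) * F t with hG
      have h1 : HD G fun t => G t * A t := by
        have h2 := (HD.const (ex d (-ℓ₀))).mul hF
        intro t ht b b'
        have h3 := h2 t ht b b'
        refine h3.congr_deriv ?_
        rw [hG]
        simp only
        rw [Matrix.zero_mul, zero_add, Matrix.mul_assoc]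
      have hG0 : G 0 = 1 := by
        have h2 := ex_mul_neg (d := d) ((Ge d 1).neg_mem (nn_pos hN hℓ₀))
        rw [neg_neg] at h2
        rw [hG]
        simp only
        rw [hF0, h2]
      -- entries
      have key : ∀ (n : ℕ) (b b' : B), d b' = n → d b' ≤ d b → ∀ t ∈ Icc (0 : ℝ) 1,
          G t b b' = (1 : Matrix B B ℂ) b b' := by
        intro n
        induction n using Nat.strong_induction_on with
        | _ n ih =>
          intro b b' h2 h3 t ht
          have h4 : ∀ t ∈ Icc (0 : ℝ) 1, HasDerivWithinAt (fun t => G t b b') 0 (Icc 0 1) t := by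
            intro t ht
            refine (h1 t ht b b').congr_deriv ?_
            change (G t * A t) b b' = 0
            rw [Matrix.mul_apply]
            refine Finset.sum_eq_zero fun c _ => ?_
            rcases lt_or_ge (d b') (d c + 1) with h5 | h5
            · rw [nn_pos hN (hA t ht) c b' h5, mul_zero]
            · rw [ih (d c) (by omega) b c rfl (by omega) t ht, Matrix.one_apply_ne, zero_mul]
              rintro rfl
              omega
          rw [const_of_zero' h4 ht, hG0]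
      intro b b' h
      rw [Matrix.sub_apply]
      have h2 := key (d b') b b' rfl (by omega) t ht
      rw [← h2]
      exact sub_self _
    · obtain rfl : j = 0 := by omega
      have h1 : (0 : Matrix B B ℂ) - A t ∈ Ge d (0 + 1) := (Ge d 1).sub_mem (Ge d 1).zero_mem (nn_pos hN (hA t ht))
      rw [pr_eq_zero h1]
      exact (FF N 1).zero_mem
  | succ k ih =>
    obtain ⟨Z, Z', h1, h2, h3⟩ := ih
    set W : ℝ → Matrix B B ℂ := fun t => ex d (-Z t) * F t with hW
    set W' : ℝ → Matrix B B ℂ := fun t => dx d (-Z t) (-Z' t) * F t + ex d (-Z t) * (F t * A t) with hW'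
    have h4 : HD W W' := h1.neg.ex.mul hF
    set V : ℝ → Matrix B B ℂ := fun t => dx d (-Z t) (-Z' t) * ex d (Z t) with hV
    have hVm : ∀ t ∈ Icc (0 : ℝ) 1, V t ∈ nn N ∧ V t + Z' t ∈ FF N 1 := by
      intro t ht
      have h5 := dx_mem' hN ((nn N).neg_mem (h3 t ht).1) ((nn N).neg_mem (h3 t ht).2.1)
      rw [neg_neg, sub_neg_eq_add] at h5
      exact h5
    have h5 : ∀ t ∈ Icc (0 : ℝ) 1, W' t = V t * W t + W t * A t := by
      intro t ht
      simp only [hW', hV, hW]
      congr 1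
      · have h6 : dx d (-Z t) (-Z' t) * ex d (Z t) * (ex d (-Z t) * F t) =
            dx d (-Z t) (-Z' t) * (ex d (Z t) * ex d (-Z t)) * F t := by
          simp only [Matrix.mul_assoc]
        rw [h6, ex_mul_neg (nn_pos hN (h3 t ht).1), Matrix.mul_one]
      · rw [Matrix.mul_assoc]
    have h6 : ∀ t ∈ Icc (0 : ℝ) 1, W' t - (V t + A t) ∈ Ge d (k + 1 + 1) := by
      intro t ht
      rw [h5 t ht]
      have h7 := Ge_mul (nn_pos hN (hVm t ht).1) (h3 t ht).2.2.1
      have h8 := Ge_mul (h3 t ht).2.2.1 (nn_pos hN (hA t ht))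
      rw [add_comm 1 (k + 1)] at h7
      refine (congrArg (· ∈ Ge d (k + 1 + 1)) ?_).mp ((Ge d _).add_mem h7 h8)
      simp only [Matrix.mul_sub, Matrix.sub_mul, Matrix.mul_one, Matrix.one_mul, hW]
      abel
    have h7' : ∀ t ∈ Icc (0 : ℝ) 1, pr d (k + 1) (W' t) = pr d (k + 1) (V t + A t) := by
      intro t ht
      have h8 := pr_eq_zero (h6 t ht)
      rw [map_sub, sub_eq_zero] at h8
      exact h8
    have h7 : ∀ t ∈ Icc (0 : ℝ) 1, pr d (k + 1) (W' t) ∈ nn N := by
      intro t ht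
      rw [h7' t ht]
      exact nn_pr' hκ (k + 1) ((nn N).add_mem (hVm t ht).1 (hA t ht))
    have hW0 : W 0 = 1 := by
      have h8 := ex_mul_neg (d := d) ((Ge d 1).neg_mem (nn_pos hN hℓ₀))
      rw [neg_neg] at h8
      simp only [hW]
      rw [h2, hF0, h8]
    have hpr1 : pr d (k + 1) (1 : Matrix B B ℂ) = 0 := by
      ext b b'
      rw [pr_apply]
      split_ifs with h8
      · rw [Matrix.one_apply_ne]
        · rfl
        · rintro rfl
          omega
      · rfl
    have h8 : ∀ t ∈ Icc (0 : ℝ) 1, pr d (k + 1) (W t) ∈ nn N := by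
      intro t ht
      refine (h4.pr (d := d) (k + 1)).mem (nn N) h7 ?_ ht
      rw [hW0, hpr1]
      exact (nn N).zero_mem
    refine ⟨fun t => Z t + pr d (k + 1) (W t), fun t => Z' t + pr d (k + 1) (W' t), h1.add (h4.pr (k + 1)), ?_,
      fun t ht => ⟨(nn N).add_mem (h3 t ht).1 (h8 t ht), (nn N).add_mem (h3 t ht).2.1 (h7 t ht), ?_, fun j hj => ?_⟩⟩
    · change Z 0 + pr d (k + 1) (W 0) = ℓ₀
      rw [hW0, hpr1, add_zero, h2]
    · -- the exponential of a sum
      set r : Matrix B B ℂ := pr d (k + 1) (W t) with hr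
      have hr1 : r ∈ Ge d (k + 1) := by
        have h9 := (h3 t ht).2.2.1
        have h10 := sub_pr h9
        rw [map_sub, hpr1, sub_zero] at h10
        have h11 := (Ge d (k + 1)).sub_mem h9 (Ge_mono (Nat.le_succ _) h10)
        rwa [sub_sub_cancel] at h11
      have hZ1 := nn_pos hN (h3 t ht).1
      have h9 := ex_add_small (d := d) hZ1 hr1
      have h10 : W t - 1 - r ∈ Ge d (k + 1 + 1) := by
        have h11 := sub_pr (h3 t ht).2.2.1
        rw [map_sub, hpr1, sub_zero] at h11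
        exact h11
      have hF1 : F t - 1 ∈ Ge d 1 := by
        have h11 : F t = ex d (Z t) * W t := by
          simp only [hW]
          rw [← Matrix.mul_assoc, ex_mul_neg hZ1, Matrix.one_mul]
        have h12 : F t - 1 = (ex d (Z t) - 1) * W t + (W t - 1) := by
          rw [h11]
          simp only [Matrix.sub_mul, Matrix.one_mul]
          abel
        have h13 : W t ∈ Ge d 0 := by
          have h14 := (Ge d 0).add_mem (Ge_mono (Nat.zero_le _) (h3 t ht).2.2.1) Ge_one
          rwa [sub_add_cancel] at h14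
        rw [h12]
        refine (Ge d 1).add_mem ?_ (Ge_mono (by omega) (h3 t ht).2.2.1)
        exact Ge_mul (ex_one hZ1) h13
      have h11 : (ex d (-(Z t + r)) - ex d (-Z t) + r) * F t ∈ Ge d (k + 1 + 1) := by
        have h12 : F t ∈ Ge d 0 := by
          have h14 := (Ge d 0).add_mem (Ge_mono (Nat.zero_le _) hF1) Ge_one
          rwa [sub_add_cancel] at h14
        have h13 := Ge_mul h9 h12
        rwa [add_zero] at h13
      have h12 : r * (F t - 1) ∈ Ge d (k + 1 + 1) := Ge_mul hr1 hF1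
      refine (congrArg (· ∈ Ge d (k + 1 + 1)) ?_).mp ((Ge d _).add_mem ((Ge d _).sub_mem h11 h12) h10)
      simp only [hW, Matrix.sub_mul, Matrix.add_mul, Matrix.mul_sub, Matrix.mul_one]
      abel
    · rcases Nat.lt_or_ge j (k + 1) with h9 | h9
      · have h10 : pr d j (Z' t + pr d (k + 1) (W' t) - A t) = pr d j (Z' t - A t) := by
          rw [add_sub_right_comm, map_add, pr_pr (by omega), add_zero]
        rw [h10]
        exact (h3 t ht).2.2.2 j (by omega)
      · obtain rfl : j = k + 1 := by omega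
        have h10 : pr d (k + 1) (Z' t + pr d (k + 1) (W' t) - A t) = pr d (k + 1) (V t + Z' t) := by
          rw [map_sub, map_add, pr_self, h7' t ht, map_add, map_add]
          abel
        rw [h10]
        exact FF_pr hκ 1 (k + 1) (hVm t ht).2

/-- solutions are exponentials -/
theorem solG (hN : Pos d N) (hκ : Homg d κ N) {F A : ℝ → Matrix B B ℂ} {ℓ₀ : Matrix B B ℂ} (hℓ₀ : ℓ₀ ∈ nn N)
    (hA : ∀ t ∈ Icc (0 : ℝ) 1, A t ∈ nn N) (hF : HD F fun t => F t * A t) (hF0 : F 0 = ex d ℓ₀) :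
    ∃ Z Z' : ℝ → Matrix B B ℂ, HD Z Z' ∧ Z 0 = ℓ₀ ∧ (∀ t ∈ Icc (0 : ℝ) 1, Z t ∈ nn N ∧ F t = ex d (Z t) ∧
      Z' t - A t ∈ FF N 1) := by
  obtain ⟨Z, Z', h1, h2, h3⟩ := approxG hN hκ hℓ₀ hA hF hF0 (top d)
  refine ⟨Z, Z', h1, h2, fun t ht => ⟨(h3 t ht).1, ?_, ?_⟩⟩
  · have h5 := Ge_top (by omega) (h3 t ht).2.2.1
    rw [sub_eq_zero] at h5
    have h6 : F t = ex d (Z t) * (ex d (-Z t) * F t) := by
      rw [← Matrix.mul_assoc, ex_mul_neg (nn_pos hN (h3 t ht).1), Matrix.one_mul]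
    rw [h6, h5, Matrix.mul_one]
  · have h5 : Z' t - A t ∈ Ge d 1 := (Ge d 1).sub_mem (nn_pos hN (h3 t ht).2.1) (nn_pos hN (hA t ht))
    rw [sum_pr h5]
    refine (FF N 1).sum_mem fun k hk => (h3 t ht).2.2.2 (k + 1) ?_
    rw [Finset.mem_range] at hk
    omega

theorem ee_comm' (a : ℂ) (Y : Matrix B B ℂ) (k : ℕ) : Y * ee (a • Y) k = ee (a • Y) k * Y := by
  unfold ee
  rw [smul_pow, Matrix.mul_smul, Matrix.mul_smul, Matrix.smul_mul, Matrix.smul_mul, ← pow_succ, ← pow_succ']

theorem ed_line (a : ℂ) (Y : Matrix B B ℂ) (k : ℕ) : ed (a • Y) Y (k + 1) = ee (a • Y) k * Y := by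
  induction k with
  | zero =>
    rw [ed, ed, ee_zero, Matrix.mul_one, Matrix.mul_zero, add_zero, Matrix.one_mul, zero_add, Nat.cast_one, inv_one,
      one_smul]
  | succ k ih =>
    rw [ed, ih, ← Matrix.mul_assoc, ← ee_succ, ee_comm', Matrix.smul_mul]
    have h3 : ((k + 1 + 1 : ℕ) : ℂ) ≠ 0 := Nat.cast_ne_zero.2 (Nat.succ_ne_zero _)
    have h4 : ee (a • Y) (k + 1) * Y + ((k + 1 : ℕ) : ℂ) • (ee (a • Y) (k + 1) * Y) =
        ((k + 1 + 1 : ℕ) : ℂ) • (ee (a • Y) (k + 1) * Y) := by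
      push_cast
      simp only [add_smul, one_smul]
      abel
    rw [h4, smul_smul, inv_mul_cancel₀ h3, one_smul]

theorem dx_line {Y : Matrix B B ℂ} (hY : Y ∈ Ge d 1) (a : ℂ) : dx d (a • Y) Y = ex d (a • Y) * Y := by
  obtain ⟨m, hm⟩ : ∃ m, top d = m + 1 := ⟨top d - 1, by
    have : 0 < top d := Nat.succ_pos _
    omega⟩
  unfold dx ex
  rw [hm, Finset.sum_range_succ' (fun k => ed (a • Y) Y k), Finset.sum_range_succ (fun k => ee (a • Y) k),
    Matrix.add_mul, Finset.sum_mul]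
  have h1 : ed (a • Y) Y 0 = 0 := rfl
  have h2 : ee (a • Y) m * Y = 0 := by
    have h3 : ee (a • Y) m ∈ Ge d m := by
      unfold ee
      have h4 := Ge_pow ((Ge d 1).smul_mem a hY) m
      rw [mul_one] at h4
      exact (Ge d m).smul_mem _ h4
    exact Ge_top (by omega) (Ge_mul h3 hY)
  rw [h1, h2, add_zero, add_zero]
  exact Finset.sum_congr rfl fun k _ => ed_line a Y k

theorem HD_line (Y : Matrix B B ℂ) : HD (fun t => (t : ℂ) • Y) (fun _ => Y) := by
  intro t ht b b'
  have h1 : HasDerivWithinAt (fun t : ℝ => (t : ℂ) * Y b b') (1 * Y b b') (Icc 0 1) t :=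
    (Complex.ofRealCLM.hasDerivAt.hasDerivWithinAt).mul_const _
  rw [one_mul] at h1
  exact h1

/-- **Products of exponentials are exponentials.** -/
theorem bch (hN : Pos d N) (hκ : Homg d κ N) {X Y : Matrix B B ℂ} (hX : X ∈ nn N) (hY : Y ∈ nn N) :
    ∃ Z ∈ nn N, ex d X * ex d Y = ex d Z ∧ Z - (X + Y) ∈ FF N 1 := by
  have hY1 := nn_pos hN hY
  have hF : HD (fun t : ℝ => ex d X * ex d ((t : ℂ) • Y)) (fun t => (ex d X * ex d ((t : ℂ) • Y)) * Y) := by
    have h1 := (HD.const (ex d X)).mul ((HD_line Y).ex (d := d))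
    intro t ht b b'
    refine (h1 t ht b b').congr_deriv ?_
    simp only
    rw [Matrix.zero_mul, zero_add, dx_line hY1, Matrix.mul_assoc]
  have hF0 : ex d X * ex d (((0 : ℝ) : ℂ) • Y) = ex d X := by
    rw [Complex.ofReal_zero, zero_smul]
    have h1 : ex d (0 : Matrix B B ℂ) = 1 := by
      have h2 := ex_mul_neg (d := d) (Ge d 1).zero_mem
      rw [neg_zero] at h2
      have h3 := ex_one (d := d) (Ge d 1).zero_mem
      unfold ex
      rw [Finset.sum_eq_single 0]
      · exact ee_zero _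
      · intro k _ hk
        unfold ee
        rw [zero_pow hk, smul_zero]
      · intro h
        exact absurd (Finset.mem_range.2 (Nat.succ_pos _)) h
    rw [h1, Matrix.mul_one]
  obtain ⟨Z, Z', h1, h2, h3⟩ := solG hN hκ hX (fun t _ => hY) hF hF0
  have h11 : (1 : ℝ) ∈ Icc (0 : ℝ) 1 := right_mem_Icc.2 zero_le_one
  refine ⟨Z 1, (h3 1 h11).1, ?_, ?_⟩
  · rw [← (h3 1 h11).2.1, Complex.ofReal_one, one_smul]
  · have h4 : HD (fun t => Z t - (X + (t : ℂ) • Y)) (fun t => Z' t - Y) := by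
      have h5 := h1.add ((HD.const X).add (HD_line Y)).neg
      intro t ht b b'
      refine ((h5 t ht b b').congr_deriv ?_).congr_of_eventuallyEq ?_ ?_
      · simp only [zero_add]
        rw [← sub_eq_add_neg]
      · refine Filter.Eventually.of_forall fun t => ?_
        simp only [sub_eq_add_neg]
      · simp only [sub_eq_add_neg]
    have h5 := h4.mem (FF N 1) (fun t ht => (h3 t ht).2.2) (by
      simp only [Complex.ofReal_zero, zero_smul, add_zero]
      rw [h2, sub_self]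
      exact (FF N 1).zero_mem) h11
    simp only [Complex.ofReal_one, one_smul] at h5
    exact h5

end Pool.Agent.X306.MZ
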