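import Pool.Agent.X306.MZ.Main
import Pool.Agent.X306.AV.Lie

set_option autoImplicit false
set_option linter.unusedVariables false
set_option linter.unusedSectionVars false
set_option linter.unusedSimpArgs false

/-!
# Consequences
-/

open Matrix

noncomputable section

namespace Pool.Agent.X306.MZ

open Pool.Agent.W245.EB
open Pool.Agent.X306.MT
open Pool.Agent.X306.EM (QB_iff QQ mem_QQ QQ_le)

variable {B S : Type} [Fintype B] [DecidableEq B] {d : B → ℕ} {N : S → Matrix B B ℂ} {κ : S → ℕ}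

theorem two_pi_I_not_alg : ¬ IsAlgebraic ℚ (2 * Real.pi * Complex.I : ℂ) := by
  intro halg
  have h2I : IsAlgebraic ℚ ((2 * Complex.I)⁻¹ : ℂ) := by
    refine IsAlgebraic.inv (IsAlgebraic.mul ?_ Pool.Agent.H340R2.LW.isAlgebraic_I)
    exact_mod_cast (isAlgebraic_natCast (R := ℚ) (A := ℂ) 2)
  have h3 := halg.mul h2I
  have h4 : (2 * Real.pi * Complex.I : ℂ) * (2 * Complex.I)⁻¹ = Real.pi := by
    have hI := Complex.I_ne_zero
    field_simp
  rw [h4] at h3
  exact Pool.Agent.H340R2.LW.transcendental_pi_complex h3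

theorem trans_w {K : Subfield ℂ} (hK : K ≤ QB) : Transcendental K (2 * Real.pi * Complex.I : ℂ) := by
  intro h
  have hA : Algebra.IsAlgebraic ℚ K := by
    constructor
    intro x
    have h1 : IsAlgebraic ℚ (x : ℂ) := (QB_iff _).2 (hK x.2)
    exact (isAlgebraic_algebraMap_iff (R := ℚ) (S := K) (A := ℂ) (FaithfulSMul.algebraMap_injective K ℂ)).1 h1
  exact two_pi_I_not_alg (h.restrictScalars ℚ)

/-- the span of the commutators -/
def cmm (N : S → Matrix B B ℂ) : Submodule ℂ (Matrix B B ℂ) :=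
  Submodule.span ℂ {z | ∃ x ∈ nn N, ∃ y ∈ nn N, z = x * y - y * x}

theorem cmm_eq : cmm N = FF N 1 := by
  apply le_antisymm
  · refine Submodule.span_le.2 ?_
    rintro _ ⟨x, hx, y, hy, rfl⟩
    exact nn_br1 hx hy
  · refine iSup_le fun i => ?_
    have h1 : 1 + i = i + 1 := by omega
    rw [h1]
    refine Submodule.span_le.2 ?_
    rintro _ ⟨s, y, hy, rfl⟩
    exact Submodule.subset_span ⟨N s, qq_le 0 (Submodule.subset_span ⟨s, rfl⟩), y, qq_le i hy, rfl⟩

/-- odd powers of `2πi` are imaginary -/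
theorem re_odd {k : ℕ} (hk : Odd k) : ((2 * Real.pi * Complex.I : ℂ) ^ k).re = 0 := by
  obtain ⟨j, rfl⟩ := hk
  have h1 : (2 * Real.pi * Complex.I : ℂ) ^ (2 * j + 1) = (((2 * Real.pi) ^ (2 * j + 1) * (-1) ^ j : ℝ) : ℂ) * Complex.I := by
    rw [mul_pow, pow_succ Complex.I, pow_mul Complex.I, Complex.I_sq]
    push_cast
    ring
  rw [h1, Complex.re_ofReal_mul, Complex.I_re, mul_zero]

/-- irrationality implies independence in the given degree -/
theorem ind_of_irr [Fintype S] (hinj : Function.Injective κ) (z : S → ℝ) (s : S) (hodd : Odd (κ s))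
    (hz : Irrational (z s)) : Ind QQ κ (fun s => (z s : ℂ)) (2 * Real.pi * Complex.I) (κ s) := by
  classical
  intro a u v ha ha0 hu hv h
  obtain ⟨qu, rfl⟩ := mem_QQ.1 hu
  obtain ⟨qv, rfl⟩ := mem_QQ.1 hv
  obtain ⟨qa, hqa⟩ := mem_QQ.1 (ha s)
  have h1 : ∑ s', a s' * (z s' : ℂ) = a s * z s := by
    rw [Finset.sum_eq_single s]
    · intro s' _ hs'
      rw [ha0 s' (fun h => hs' (hinj h)), zero_mul]
    · intro h
      exact absurd (Finset.mem_univ _) h
  rw [h1, ← hqa] at h
  have h2 := congrArg Complex.re h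
  have h3 : ((qa : ℂ) * (z s : ℂ)).re = qa * z s := by
    rw [← Complex.ofReal_ratCast, ← Complex.ofReal_mul, Complex.ofReal_re]
  have h4 : ((qu : ℂ) + (qv : ℂ) * (2 * Real.pi * Complex.I : ℂ) ^ κ s).re = qu := by
    rw [Complex.add_re, ← Complex.ofReal_ratCast qv, Complex.re_ofReal_mul, re_odd hodd, mul_zero, add_zero,
      ← Complex.ofReal_ratCast, Complex.ofReal_re]
  rw [h3, h4] at h2
  have h5 : qa = 0 := by
    by_contra hne
    have hne' : (qa : ℝ) ≠ 0 := Rat.cast_ne_zero.2 hne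
    refine hz ⟨qu / qa, ?_⟩
    push_cast
    rw [div_eq_iff hne', ← h2]
    ring
  funext s'
  by_cases hs : s' = s
  · subst hs
    rw [← hqa, h5, Rat.cast_zero]
    rfl
  · exact ha0 s' (fun h => hs (hinj h))

end Pool.Agent.X306.MZ
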