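import Pool.Agent.X306.MT.Ode

set_option autoImplicit false
set_option linter.unusedVariables false
set_option linter.unusedSectionVars false
set_option linter.unusedSimpArgs false

/-!
# The lower central series of a Lie algebra generated by homogeneous matrices
-/

open Matrix

noncomputable section

namespace Pool.Agent.X306.MZ

open Pool.Agent.X306.MT

variable {B S : Type} [Fintype B] [DecidableEq B] {d : B → ℕ} {N : S → Matrix B B ℂ}

/-- the lower central series -/
def FF (N : S → Matrix B B ℂ) (j : ℕ) : Submodule ℂ (Matrix B B ℂ) := ⨆ i, qq N (j + i)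

theorem qq_FF {i j : ℕ} (h : j ≤ i) : qq N i ≤ FF N j := by
  obtain ⟨k, rfl⟩ := Nat.exists_eq_add_of_le h
  exact le_iSup (fun i => qq N (j + i)) k

theorem FF_mono {i j : ℕ} (h : j ≤ i) : FF N i ≤ FF N j := iSup_le fun k => qq_FF (by omega)

theorem FF_zero : FF N 0 = nn N := by
  apply le_antisymm
  · exact iSup_le fun k => qq_le _
  · exact iSup_le fun k => qq_FF (Nat.zero_le _)

theorem FF_nn (j : ℕ) : FF N j ≤ nn N := by
  rw [← FF_zero]
  exact FF_mono (Nat.zero_le _)

/-- an induction principle -/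
theorem FF_ind {j : ℕ} {p : Matrix B B ℂ → Prop} (hq : ∀ i, j ≤ i → ∀ x ∈ qq N i, p x) (h0 : p 0)
    (ha : ∀ x y, p x → p y → p (x + y)) {x : Matrix B B ℂ} (hx : x ∈ FF N j) : p x := by
  induction hx using Submodule.iSup_induction' with
  | mem i x hx => exact hq _ (Nat.le_add_right _ _) x hx
  | zero => exact h0
  | add x y _ _ h1 h2 => exact ha x y h1 h2

theorem FF_br {i j : ℕ} {x y : Matrix B B ℂ} (hx : x ∈ FF N i) (hy : y ∈ FF N j) :
    x * y - y * x ∈ FF N (i + j + 1) := by
  refine FF_ind (p := fun x => x * y - y * x ∈ FF N (i + j + 1)) (fun a ha x hx => ?_) ?_ ?_ hx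
  · refine FF_ind (p := fun y => x * y - y * x ∈ FF N (i + j + 1)) (fun b hb y hy => ?_) ?_ ?_ hy
    · exact qq_FF (by omega) (qq_br hx hy)
    · rw [Matrix.mul_zero, Matrix.zero_mul, sub_zero]
      exact Submodule.zero_mem _
    · intro y y' h1 h2
      refine (congrArg (· ∈ FF N (i + j + 1)) ?_).mp (Submodule.add_mem _ h1 h2)
      rw [Matrix.mul_add, Matrix.add_mul]
      abel
  · rw [Matrix.mul_zero, Matrix.zero_mul, sub_zero]
    exact Submodule.zero_mem _
  · intro x x' h1 h2
    refine (congrArg (· ∈ FF N (i + j + 1)) ?_).mp (Submodule.add_mem _ h1 h2)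
    rw [Matrix.mul_add, Matrix.add_mul]
    abel

theorem nn_br1 {x y : Matrix B B ℂ} (hx : x ∈ nn N) (hy : y ∈ nn N) : x * y - y * x ∈ FF N 1 := by
  have h1 : x ∈ FF N 0 := by
    rw [FF_zero]
    exact hx
  have h2 : y ∈ FF N 0 := by
    rw [FF_zero]
    exact hy
  have h3 := FF_br h1 h2
  rw [zero_add, zero_add] at h3
  exact h3

theorem FF_split (j : ℕ) {x : Matrix B B ℂ} (hx : x ∈ FF N j) : ∃ y ∈ qq N j, x - y ∈ FF N (j + 1) := by
  have h1 : FF N j ≤ qq N j ⊔ FF N (j + 1) := by
    refine iSup_le fun i => ?_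
    rcases i with _ | i
    · exact le_sup_left
    · exact le_trans (qq_FF (by omega)) le_sup_right
  obtain ⟨y, hy, z, hz, hyz⟩ := Submodule.mem_sup.1 (h1 hx)
  refine ⟨y, hy, ?_⟩
  rw [← hyz, add_sub_cancel_left]
  exact hz

/-- the generators have positive degree -/
def Pos (d : B → ℕ) (N : S → Matrix B B ℂ) : Prop := ∀ s, N s ∈ Ge d 1

theorem qq_pos (hN : Pos d N) (k : ℕ) {x : Matrix B B ℂ} (hx : x ∈ qq N k) : x ∈ Ge d (k + 1) := by
  induction k generalizing x with
  | zero =>
    have h1 : x ∈ Submodule.span ℂ (Set.range N) := hx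
    rw [zero_add]
    refine (Submodule.span_le.2 ?_) h1
    rintro _ ⟨s, rfl⟩
    exact hN s
  | succ k ih =>
    have h1 : x ∈ Submodule.span ℂ {z | ∃ s, ∃ y ∈ qq N k, z = N s * y - y * N s} := hx
    refine (Submodule.span_le.2 ?_) h1
    rintro _ ⟨s, y, hy, rfl⟩
    have h2 := Ge_br (hN s) (ih hy)
    rw [add_comm 1 (k + 1)] at h2
    exact h2

theorem FF_pos (hN : Pos d N) (j : ℕ) {x : Matrix B B ℂ} (hx : x ∈ FF N j) : x ∈ Ge d (j + 1) :=
  FF_ind (p := fun x => x ∈ Ge d (j + 1)) (fun i hi x hx => Ge_mono (by omega) (qq_pos hN i hx))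
    (Submodule.zero_mem _) (fun x y h1 h2 => Submodule.add_mem _ h1 h2) hx

theorem nn_pos (hN : Pos d N) {x : Matrix B B ℂ} (hx : x ∈ nn N) : x ∈ Ge d 1 := by
  rw [← FF_zero] at hx
  exact FF_pos hN 0 hx

theorem FF_top (hN : Pos d N) {j : ℕ} (hj : top d ≤ j + 1) {x : Matrix B B ℂ} (hx : x ∈ FF N j) : x = 0 :=
  Ge_top hj (FF_pos hN j hx)

/-- the generators are homogeneous -/
def Homg (d : B → ℕ) (κ : S → ℕ) (N : S → Matrix B B ℂ) : Prop := ∀ s b b', d b' ≠ d b + κ s → N s b b' = 0

/-- entrywise multiplication with a function of the degree -/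
def em (d : B → ℕ) (f : ℤ → ℂ) (X : Matrix B B ℂ) : Matrix B B ℂ :=
  Matrix.of fun b b' => f ((d b' : ℤ) - d b) * X b b'

theorem em_apply (f : ℤ → ℂ) (X : Matrix B B ℂ) (b b' : B) : em d f X b b' = f ((d b' : ℤ) - d b) * X b b' := rfl

theorem em_add (f : ℤ → ℂ) (X Y : Matrix B B ℂ) : em d f (X + Y) = em d f X + em d f Y := by
  ext b b'
  simp only [em_apply, Matrix.add_apply, mul_add]

theorem em_smul (f : ℤ → ℂ) (a : ℂ) (X : Matrix B B ℂ) : em d f (a • X) = a • em d f X := by
  ext b b'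
  simp only [em_apply, Matrix.smul_apply, smul_eq_mul]
  ring

theorem em_zero (f : ℤ → ℂ) : em d f (0 : Matrix B B ℂ) = 0 := by
  ext b b'
  simp only [em_apply, Matrix.zero_apply, mul_zero]

variable {κ : S → ℕ}

/-- an additive function -/
theorem em_br_add {f : ℤ → ℂ} (hf : ∀ a b, f (a + b) = f a + f b) (X Y : Matrix B B ℂ) :
    em d f (X * Y - Y * X) = (em d f X * Y - Y * em d f X) + (X * em d f Y - em d f Y * X) := by
  ext b b'
  simp only [em_apply, Matrix.sub_apply, Matrix.add_apply, Matrix.mul_apply, mul_sub, Finset.mul_sum]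
  have h1 : ∀ c, f ((d b' : ℤ) - d b) = f ((d c : ℤ) - d b) + f ((d b' : ℤ) - d c) := by
    intro c
    rw [← hf]
    congr 1
    ring
  have h2 : ∑ c, f ((d b' : ℤ) - d b) * (X b c * Y c b') =
      ∑ c, f ((d c : ℤ) - d b) * X b c * Y c b' + ∑ c, X b c * (f ((d b' : ℤ) - d c) * Y c b') := by
    rw [← Finset.sum_add_distrib]
    refine Finset.sum_congr rfl fun c _ => ?_
    rw [h1 c]
    ring
  have h3 : ∑ c, f ((d b' : ℤ) - d b) * (Y b c * X c b') =
      ∑ c, f ((d c : ℤ) - d b) * Y b c * X c b' + ∑ c, Y b c * (f ((d b' : ℤ) - d c) * X c b') := by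
    rw [← Finset.sum_add_distrib]
    refine Finset.sum_congr rfl fun c _ => ?_
    rw [h1 c]
    ring
  rw [h2, h3]
  ring

/-- a multiplicative function -/
theorem em_br_mul {f : ℤ → ℂ} (hf : ∀ a b, f (a + b) = f a * f b) (X Y : Matrix B B ℂ) :
    em d f (X * Y - Y * X) = em d f X * em d f Y - em d f Y * em d f X := by
  ext b b'
  simp only [em_apply, Matrix.sub_apply, Matrix.mul_apply, mul_sub, Finset.mul_sum]
  have h1 : ∀ c, f ((d b' : ℤ) - d b) = f ((d c : ℤ) - d b) * f ((d b' : ℤ) - d c) := by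
    intro c
    rw [← hf]
    congr 1
    ring
  congr 1
  · refine Finset.sum_congr rfl fun c _ => ?_
    rw [h1 c]
    ring
  · refine Finset.sum_congr rfl fun c _ => ?_
    rw [h1 c]
    ring

theorem em_N (hκ : Homg d κ N) (f : ℤ → ℂ) (s : S) : em d f (N s) = f (κ s) • N s := by
  ext b b'
  rw [em_apply, Matrix.smul_apply, smul_eq_mul]
  by_cases h : d b' = d b + κ s
  · rw [h]
    congr 2
    push_cast
    ring
  · rw [hκ s b b' h, mul_zero, mul_zero]

theorem em_qq_add (hκ : Homg d κ N) {f : ℤ → ℂ} (hf : ∀ a b, f (a + b) = f a + f b) (k : ℕ) {x : Matrix B B ℂ}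
    (hx : x ∈ qq N k) : em d f x ∈ qq N k := by
  induction k generalizing x with
  | zero =>
    have h1 : x ∈ Submodule.span ℂ (Set.range N) := hx
    clear hx
    induction h1 using Submodule.span_induction with
    | mem x hx =>
      obtain ⟨s, rfl⟩ := hx
      rw [em_N hκ]
      exact Submodule.smul_mem _ _ (Submodule.subset_span ⟨s, rfl⟩)
    | zero =>
      rw [em_zero]
      exact Submodule.zero_mem _
    | add x y _ _ h1 h2 =>
      rw [em_add]
      exact Submodule.add_mem _ h1 h2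
    | smul a x _ h1 =>
      rw [em_smul]
      exact Submodule.smul_mem _ _ h1
  | succ k ih =>
    have h1 : x ∈ Submodule.span ℂ {z | ∃ s, ∃ y ∈ qq N k, z = N s * y - y * N s} := hx
    clear hx
    induction h1 using Submodule.span_induction with
    | mem x hx =>
      obtain ⟨s, y, hy, rfl⟩ := hx
      rw [em_br_add hf, em_N hκ]
      refine Submodule.add_mem _ ?_ (qq_step s (ih hy))
      have h2 := Submodule.smul_mem _ (f (κ s)) (qq_step s hy)
      refine (congrArg (· ∈ qq N (k + 1)) ?_).mp h2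
      rw [smul_sub, Matrix.smul_mul, Matrix.mul_smul]
    | zero =>
      rw [em_zero]
      exact Submodule.zero_mem _
    | add x y _ _ h1 h2 =>
      rw [em_add]
      exact Submodule.add_mem _ h1 h2
    | smul a x _ h1 =>
      rw [em_smul]
      exact Submodule.smul_mem _ _ h1

theorem em_FF_add (hκ : Homg d κ N) {f : ℤ → ℂ} (hf : ∀ a b, f (a + b) = f a + f b) (j : ℕ) {x : Matrix B B ℂ}
    (hx : x ∈ FF N j) : em d f x ∈ FF N j :=
  FF_ind (p := fun x => em d f x ∈ FF N j) (fun i hi x hx => qq_FF hi (em_qq_add hκ hf i hx))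
    (by
      rw [em_zero]
      exact Submodule.zero_mem _)
    (fun x y h1 h2 => by
      rw [em_add]
      exact Submodule.add_mem _ h1 h2) hx

theorem em_em (f g : ℤ → ℂ) (X : Matrix B B ℂ) : em d f (em d g X) = em d (fun z => f z * g z) X := by
  ext b b'
  simp only [em_apply]
  ring

theorem em_fadd (f g : ℤ → ℂ) (X : Matrix B B ℂ) : em d (fun z => f z + g z) X = em d f X + em d g X := by
  ext b b'
  simp only [em_apply, Matrix.add_apply]
  ring

theorem em_fsmul (a : ℂ) (f : ℤ → ℂ) (X : Matrix B B ℂ) : em d (fun z => a * f z) X = a • em d f X := by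
  ext b b'
  simp only [em_apply, Matrix.smul_apply, smul_eq_mul]
  ring

/-- a subspace which is stable under multiplication with the degree is stable under all polynomials in the degree -/
theorem em_poly {V : Submodule ℂ (Matrix B B ℂ)} (hV : ∀ x ∈ V, em d (fun z => (z : ℂ)) x ∈ V) (p : Polynomial ℂ)
    {x : Matrix B B ℂ} (hx : x ∈ V) : em d (fun z => p.eval (z : ℂ)) x ∈ V := by
  induction p using Polynomial.induction_on' generalizing x with
  | add p q h1 h2 =>
    have h3 : em d (fun z => (p + q).eval (z : ℂ)) x = em d (fun z => p.eval (z : ℂ)) x + em d (fun z => q.eval (z : ℂ)) x := by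
      rw [← em_fadd]
      simp only [Polynomial.eval_add]
    rw [h3]
    exact V.add_mem (h1 hx) (h2 hx)
  | monomial n a =>
    have h3 : ∀ n : ℕ, em d (fun z => (z : ℂ) ^ n) x ∈ V := by
      intro n
      induction n with
      | zero =>
        have h4 : em d (fun z => (z : ℂ) ^ 0) x = x := by
          ext b b'
          rw [em_apply, pow_zero, one_mul]
        rw [h4]
        exact hx
      | succ n ih =>
        have h4 : em d (fun z => (z : ℂ) ^ (n + 1)) x = em d (fun z => (z : ℂ)) (em d (fun z => (z : ℂ) ^ n) x) := by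
          rw [em_em]
          congr 1
          funext z
          rw [pow_succ, mul_comm]
        rw [h4]
        exact hV _ ih
    have h4 : em d (fun z => (Polynomial.monomial n a).eval (z : ℂ)) x = a • em d (fun z => (z : ℂ) ^ n) x := by
      rw [← em_fsmul]
      simp only [Polynomial.eval_monomial]
    rw [h4]
    exact V.smul_mem _ (h3 n)

/-- homogeneous components -/
theorem pr_stable {V : Submodule ℂ (Matrix B B ℂ)} (hV : ∀ x ∈ V, em d (fun z => (z : ℂ)) x ∈ V) (k : ℕ)
    {x : Matrix B B ℂ} (hx : x ∈ V) : pr d k x ∈ V := by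
  classical
  -- the polynomial which is one at `k` and zero at the other degrees
  set Q : Finset ℤ := ((Finset.univ : Finset (B × B)).image fun b => (d b.2 : ℤ) - d b.1).erase k with hQ
  set p : Polynomial ℂ := Polynomial.C ((∏ q ∈ Q, ((k : ℂ) - (q : ℂ)))⁻¹) * ∏ q ∈ Q, (Polynomial.X - Polynomial.C (q : ℂ))
    with hp
  have hne : ∏ q ∈ Q, ((k : ℂ) - (q : ℂ)) ≠ 0 := by
    refine Finset.prod_ne_zero_iff.2 fun q hq => ?_
    rw [hQ, Finset.mem_erase] at hq
    intro h
    apply hq.1
    have h2 : ((k : ℤ) : ℂ) = (q : ℂ) := by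
      push_cast
      exact sub_eq_zero.1 h
    exact (Int.cast_injective h2).symm
  have h1 := em_poly hV p hx
  refine (congrArg (· ∈ V) ?_).mp h1
  ext b b'
  rw [em_apply, pr_apply, hp, Polynomial.eval_mul, Polynomial.eval_C, Polynomial.eval_prod]
  simp only [Polynomial.eval_sub, Polynomial.eval_X, Polynomial.eval_C]
  split_ifs with h
  · have h2 : ((d b' : ℤ) - d b : ℤ) = (k : ℤ) := by omega
    rw [h2, Int.cast_natCast, inv_mul_cancel₀ hne, one_mul]
  · have h2 : ∏ q ∈ Q, ((((d b' : ℤ) - d b : ℤ) : ℂ) - (q : ℂ)) = 0 := by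
      refine Finset.prod_eq_zero (i := (d b' : ℤ) - d b) ?_ (sub_self _)
      rw [hQ, Finset.mem_erase]
      refine ⟨by omega, Finset.mem_image.2 ⟨(b, b'), Finset.mem_univ _, rfl⟩⟩
    rw [h2, mul_zero, zero_mul]

theorem FF_pr (hκ : Homg d κ N) (j k : ℕ) {x : Matrix B B ℂ} (hx : x ∈ FF N j) : pr d k x ∈ FF N j :=
  pr_stable (V := FF N j) (fun x hx => em_FF_add hκ (fun a b => by push_cast; ring) j hx) k hx

theorem nn_pr' (hκ : Homg d κ N) (k : ℕ) {x : Matrix B B ℂ} (hx : x ∈ nn N) : pr d k x ∈ nn N := by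
  rw [← FF_zero] at hx ⊢
  exact FF_pr hκ 0 k hx

/-- an element is the sum of its components -/
theorem sum_pr {x : Matrix B B ℂ} (hx : x ∈ Ge d 1) : x = ∑ k ∈ Finset.range (top d), pr d (k + 1) x := by
  ext b b'
  rw [Matrix.sum_apply]
  simp only [pr_apply]
  rcases lt_or_ge (d b') (d b + 1) with h | h
  · rw [hx b b' h]
    exact (Finset.sum_eq_zero fun k _ => by rw [ite_self]).symm
  · obtain ⟨k, hk⟩ := Nat.exists_eq_add_of_le h
    have hk' : k < top d := by
      have := le_top (d := d) b'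
      omega
    rw [Finset.sum_eq_single k]
    · rw [if_pos (by omega)]
    · intro j _ hj
      rw [if_neg (by omega)]
    · intro h
      exact absurd (Finset.mem_range.2 hk') h

/-- conjugation with the diagonal matrix -/
theorem La_em {μ : ℂ} (hμ : μ ≠ 0) (X : Matrix B B ℂ) : La d μ * X * La d μ⁻¹ = em d (fun z => μ ^ (-z)) X := by
  ext b b'
  unfold La
  rw [mul_diagonal, diagonal_mul, em_apply, inv_pow, neg_sub, zpow_sub₀ hμ, zpow_natCast, zpow_natCast]
  field_simp

theorem em_qq_mul (hκ : Homg d κ N) {f : ℤ → ℂ} (hf : ∀ a b, f (a + b) = f a * f b) (k : ℕ) {x : Matrix B B ℂ}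
    (hx : x ∈ qq N k) : em d f x ∈ qq N k := by
  induction k generalizing x with
  | zero =>
    have h1 : x ∈ Submodule.span ℂ (Set.range N) := hx
    clear hx
    induction h1 using Submodule.span_induction with
    | mem x hx =>
      obtain ⟨s, rfl⟩ := hx
      rw [em_N hκ]
      exact Submodule.smul_mem _ _ (Submodule.subset_span ⟨s, rfl⟩)
    | zero =>
      rw [em_zero]
      exact Submodule.zero_mem _
    | add x y _ _ h1 h2 =>
      rw [em_add]
      exact Submodule.add_mem _ h1 h2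
    | smul a x _ h1 =>
      rw [em_smul]
      exact Submodule.smul_mem _ _ h1
  | succ k ih =>
    have h1 : x ∈ Submodule.span ℂ {z | ∃ s, ∃ y ∈ qq N k, z = N s * y - y * N s} := hx
    clear hx
    induction h1 using Submodule.span_induction with
    | mem x hx =>
      obtain ⟨s, y, hy, rfl⟩ := hx
      rw [em_br_mul hf, em_N hκ]
      have h2 := Submodule.smul_mem _ (f (κ s)) (qq_step s (ih hy))
      refine (congrArg (· ∈ qq N (k + 1)) ?_).mp h2
      rw [smul_sub, Matrix.smul_mul, Matrix.mul_smul]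
    | zero =>
      rw [em_zero]
      exact Submodule.zero_mem _
    | add x y _ _ h1 h2 =>
      rw [em_add]
      exact Submodule.add_mem _ h1 h2
    | smul a x _ h1 =>
      rw [em_smul]
      exact Submodule.smul_mem _ _ h1

theorem La_FF (hκ : Homg d κ N) (j : ℕ) {μ : ℂ} (hμ : μ ≠ 0) {x : Matrix B B ℂ} (hx : x ∈ FF N j) :
    La d μ * x * La d μ⁻¹ ∈ FF N j := by
  rw [La_em hμ]
  refine FF_ind (p := fun x => em d (fun z => μ ^ (-z)) x ∈ FF N j)
    (fun i hi x hx => qq_FF hi (em_qq_mul hκ (fun a b => ?_) i hx)) ?_ ?_ hx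
  · rw [neg_add, zpow_add₀ hμ]
  · rw [em_zero]
    exact Submodule.zero_mem _
  · intro x y h1 h2
    rw [em_add]
    exact Submodule.add_mem _ h1 h2

theorem br_em (X : Matrix B B ℂ) : Dl d * X - X * Dl d = -em d (fun z => (z : ℂ)) X := by
  ext b b'
  rw [Matrix.sub_apply, Matrix.neg_apply, em_apply]
  unfold Dl
  rw [diagonal_mul, mul_diagonal]
  push_cast
  ring

theorem FF_Dl (hκ : Homg d κ N) (j : ℕ) {x : Matrix B B ℂ} (hx : x ∈ FF N j) : Dl d * x - x * Dl d ∈ FF N j := by
  rw [br_em]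
  exact (FF N j).neg_mem (em_FF_add hκ (fun a b => by push_cast; ring) j hx)

end Pool.Agent.X306.MZ
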