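import Pool.Agent.X306.MZ.Rat

set_option autoImplicit false
set_option linter.unusedVariables false
set_option linter.unusedSectionVars false
set_option linter.unusedSimpArgs false

/-!
# Subtorsors over a subfield and periods of extensions
-/

open Matrix

noncomputable section

namespace Pool.Agent.X306.MZ

open Pool.Agent.TH127.PT Pool.Agent.TH119.MX Pool.Agent.TH119.DR Pool.Agent.Y123.ST
open Pool.Agent.X306.MT
open Pool.Agent.X306.RL (LL_br)

variable {B S : Type} [Fintype B] [DecidableEq B] {d : B → ℕ} {N : S → Matrix B B ℂ} {κ : S → ℕ} {K : Subfield ℂ}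
  {T : Set (Matrix B B ℂ)} {w : ℂ} {ell : Matrix B B ℂ}

/-- the Lie algebra of the unipotent part -/
def mmT (T : Set (Matrix B B ℂ)) (N : S → Matrix B B ℂ) : Submodule ℂ (Matrix B B ℂ) where
  carrier := {x | x ∈ nn N ∧ fl x ∈ LL T}
  zero_mem' := ⟨(nn N).zero_mem, (LL T).zero_mem⟩
  add_mem' := by
    rintro x y ⟨h1, h2⟩ ⟨h3, h4⟩
    exact ⟨(nn N).add_mem h1 h3, (LL T).add_mem h2 h4⟩
  smul_mem' := by
    rintro a x ⟨h1, h2⟩
    exact ⟨(nn N).smul_mem a h1, (LL T).smul_mem a h2⟩

theorem mmT_br {x y : Matrix B B ℂ} (hx : x ∈ mmT T N) (hy : y ∈ mmT T N) : x * y - y * x ∈ mmT T N :=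
  ⟨nn_br hx.1 hy.1, LL_br hx.2 hy.2⟩

theorem mmT_map (hT : IsSubtorsor K T) (hA : ∀ s, InK K (N s)) (f : ℂ →ₗ[K] ℂ) {x : Matrix B B ℂ}
    (hx : x ∈ mmT T N) : x.map f ∈ mmT T N :=
  ⟨nn_map hA hx.1 f, (LL_def hT).map f hx.2⟩

theorem fl_sub (x y : Matrix B B ℂ) : fl (x - y) = fl x - fl y := rfl

section data

variable (hT : IsSubtorsor K T) (hA : ∀ s, InK K (N s)) (hN : Pos d N) (hκ : Homg d κ N) (hw0 : w ≠ 0)
  (hell : ell ∈ nn N) (hC : La d w * ex d ell ∈ T)

include hT hA hN hκ hw0 hell hC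

/-- the logarithmic derivative of the period matrix -/
theorem logd (D : Derivation K ℂ ℂ) : ∃ v ∈ nn N, v - ell.map D ∈ FF N 1 ∧
    fl ((D w / w) • Dl d + La d w * v * La d w⁻¹) ∈ LL T := by
  set D' : Derivation ℚ ℂ ℂ := D.restrictScalars ℚ with hD'
  have hell1 := nn_pos hN hell
  have hDN : ∀ s b b', D' (N s b b') = 0 := fun s b b' => D.map_algebraMap (⟨N s b b', hA s b b'⟩ : K)
  have hDell : ell.map D' ∈ nn N := nn_der D' hDN hell
  set v : Matrix B B ℂ := (ex d ell).map D' * ex d (-ell) with hv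
  have h1 : v = ∑ k ∈ Finset.range (2 * top d), cv D' ell k := by
    rw [hv]
    unfold ex cv
    rw [map_sum_D, sum_conv (fun k hk => by rw [ee_top hell1 hk, map_zero_D])
      (fun k hk => ee_top ((Ge d 1).neg_mem hell1) hk)]
  have hcv : ∀ k, 2 ≤ k → cv D' ell k ∈ FF N 1 := by
    intro k hk
    obtain ⟨j, rfl⟩ := Nat.exists_eq_add_of_le' hk
    have h1 := cv_succ D' ell (j + 1)
    rw [cw_succ, Matrix.mul_zero, add_zero] at h1
    have h2 := nn_br1 hell (cv_mem hell hDell (j + 1))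
    rw [← h1] at h2
    have h3 : ((j + 1 + 1 : ℕ) : ℂ) ≠ 0 := Nat.cast_ne_zero.2 (Nat.succ_ne_zero _)
    have h4 := (FF N 1).smul_mem ((j + 1 + 1 : ℕ) : ℂ)⁻¹ h2
    rwa [smul_smul, inv_mul_cancel₀ h3, one_smul] at h4
  refine ⟨v, ?_, ?_, ?_⟩
  · rw [h1]
    exact (nn N).sum_mem fun k _ => cv_mem hell hDell k
  · have h0 : 0 < top d := Nat.succ_pos _
    have h2 : 2 * top d = (2 * top d - 2) + 1 + 1 := by omega
    have h3 : ell.map D = ell.map D' := rfl
    rw [h1, h2, Finset.sum_range_succ', Finset.sum_range_succ', cv_zero, cv_one, add_zero, h3, add_sub_cancel_right]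
    exact (FF N 1).sum_mem fun k _ => hcv _ (by omega)
  · have h2 := logder_mem hT D hC
    refine (congrArg (fun X => fl X ∈ LL T) ?_).mp h2
    have hLa : La d w * La d w⁻¹ = 1 := La_mul hw0
    have h3 : (La d w * ex d ell)⁻¹ = ex d (-ell) * La d w⁻¹ := by
      refine Matrix.inv_eq_right_inv ?_
      rw [Matrix.mul_assoc, ← Matrix.mul_assoc (ex d ell), ex_mul_neg hell1, Matrix.one_mul, hLa]
    have h4 : (La d w * ex d ell).map D = (La d w).map D' * ex d ell + La d w * (ex d ell).map D' := map_mul_D D' _ _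
    have h5 : (La d w).map D' = ((D w / w) • Dl d) * La d w := by
      ext b b'
      unfold La Dl
      rw [Matrix.smul_mul, Matrix.smul_apply, diagonal_mul_diagonal, Matrix.map_apply, diagonal_apply, diagonal_apply]
      split_ifs
      · change D (w ^ d b) = _
        rw [Derivation.leibniz_pow]
        rcases h : d b with _ | k
        · simp
        · rw [Nat.add_sub_cancel, nsmul_eq_mul, smul_eq_mul, smul_eq_mul]
          field_simp
          push_cast
          ring
      · rw [map_zero, smul_zero]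
    rw [h3, h4, h5, Matrix.add_mul]
    congr 1
    · have h6 : (D w / w) • Dl d * La d w * ex d ell * (ex d (-ell) * La d w⁻¹) =
          (D w / w) • Dl d * La d w * (ex d ell * ex d (-ell)) * La d w⁻¹ := by
        simp only [Matrix.mul_assoc]
      rw [h6, ex_mul_neg hell1, Matrix.mul_one, Matrix.mul_assoc, hLa, Matrix.mul_one]
    · rw [hv]
      simp only [Matrix.mul_assoc]

/-- a rational element which lifts the degree operator -/
theorem exists_Z (hw : Transcendental K w) : ∃ Z : Matrix B B ℂ, fl Z ∈ LL T ∧ Z - Dl d ∈ nn N ∧ InK K Z := by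
  obtain ⟨D, hD⟩ := Pool.Agent.W516.DR.exists_derivation (K := K) (L := ℂ) (x := w) hw
  obtain ⟨v, h1, h2, h3⟩ := logd hT hA hN hκ hw0 hell hC D
  have hc : D w / w ≠ 0 := div_ne_zero hD hw0
  obtain ⟨f, hf1, hf2⟩ := exists_fK (K := K) hc
  set X := (D w / w) • Dl d + La d w * v * La d w⁻¹ with hX
  refine ⟨X.map f, (LL_def hT).map f h3, ?_, fun b b' => hf1 _⟩
  have h4 : X.map f - Dl d = (La d w * v * La d w⁻¹).map f := by
    ext b b'
    rw [hX, Matrix.sub_apply, Matrix.map_apply, Matrix.add_apply, map_add, Matrix.smul_apply, smul_eq_mul,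
      lin_mul' f (Dl_K (d := d) b b'), hf2, one_mul, Matrix.map_apply]
    ring
  rw [h4]
  refine nn_map hA ?_ f
  have h5 := La_FF hκ 0 hw0 (x := v) (by rw [FF_zero]; exact h1)
  rwa [FF_zero] at h5

/-- The condition in degree `k`: the numbers `z_s` with `κ_s = k` are linearly independent over `K` modulo
`K + K w^k`. -/
def Ind (K : Subfield ℂ) (κ : S → ℕ) (z : S → ℂ) (w : ℂ) [Fintype S] (k : ℕ) : Prop :=
  ∀ (a : S → ℂ) (u v : ℂ), (∀ s, a s ∈ K) → (∀ s, κ s ≠ k → a s = 0) → u ∈ K → v ∈ K →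
    ∑ s, a s * z s = u + v * w ^ k → a = 0

omit hT hA hN hκ hw0 hell hC in
theorem ex_conj (hw0 : w ≠ 0) (X : Matrix B B ℂ) : ex d (La d w * X * La d w⁻¹) = La d w * ex d X * La d w⁻¹ := by
  have hLa : La d w * La d w⁻¹ = 1 := La_mul hw0
  have hLa' : La d w⁻¹ * La d w = 1 := by
    have := La_mul (d := d) (inv_ne_zero hw0)
    rwa [inv_inv] at this
  have h1 : ∀ k : ℕ, (La d w * X * La d w⁻¹) ^ k = La d w * X ^ k * La d w⁻¹ := by
    intro k
    induction k with
    | zero => rw [pow_zero, pow_zero, Matrix.mul_one, hLa]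
    | succ k ih =>
      rw [pow_succ, ih, pow_succ]
      have h3 : La d w * X ^ k * La d w⁻¹ * (La d w * X * La d w⁻¹) =
          La d w * X ^ k * (La d w⁻¹ * La d w) * (X * La d w⁻¹) := by
        simp only [Matrix.mul_assoc]
      rw [h3, hLa', Matrix.mul_one]
      simp only [Matrix.mul_assoc]
  unfold ex ee
  rw [Finset.mul_sum, Finset.sum_mul]
  refine Finset.sum_congr rfl fun k _ => ?_
  rw [h1, Matrix.mul_smul, Matrix.smul_mul]

/-- **The main step.** -/
theorem gen_mem [Fintype S] (hw : Transcendental K w) {z : S → ℂ} (hz : ell - ∑ s, z s • N s ∈ FF N 1)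
    (hκ1 : ∀ s, 1 ≤ κ s) (s₀ : S) (hI : Ind K κ z w (κ s₀)) : ∃ m ∈ mmT T N, m - N s₀ ∈ FF N 1 := by
  classical
  obtain ⟨Z, hZ1, hZ2, hZ3⟩ := exists_Z hT hA hN hκ hw0 hell hC hw
  set k := κ s₀ with hk
  have hk1 : 1 ≤ k := hκ1 s₀
  set V : Submodule ℂ (Matrix B B ℂ) := mmT T N ⊔ FF N 1 with hV
  by_contra hcon
  have hNV : N s₀ ∉ V := by
    intro h
    obtain ⟨m, h1, y, h2, h3⟩ := Submodule.mem_sup.1 h
    refine hcon ⟨m, h1, ?_⟩
    rw [← h3, sub_add_cancel_left]
    exact (FF N 1).neg_mem h2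
  have hVf : ∀ (f : ℂ →ₗ[K] ℂ), ∀ X ∈ V, X.map f ∈ V := by
    intro f X hX
    obtain ⟨m, h1, y, h2, h3⟩ := Submodule.mem_sup.1 hX
    have h4 : X.map f = m.map f + y.map f := by
      rw [← h3]
      ext b b'
      simp only [Matrix.map_apply, Matrix.add_apply, map_add]
    rw [h4]
    exact Submodule.add_mem_sup (mmT_map hT hA f h1) (FF_map hA 1 h2 f)
  have hVg : ∀ x ∈ V, em d (fun z => (z : ℂ)) x ∈ V := by
    intro X hX
    obtain ⟨m, h1, y, h2, h3⟩ := Submodule.mem_sup.1 hX
    rw [← h3, em_add]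
    refine V.add_mem ?_ ?_
    · -- `em m = -[Δ, m] = -[Z, m] + [Z - Δ, m]`
      have h4 := br_em (d := d) m
      have h5 : em d (fun z => (z : ℂ)) m = -(Z * m - m * Z) + ((Z - Dl d) * m - m * (Z - Dl d)) := by
        have h6 : em d (fun z => (z : ℂ)) m = -(Dl d * m - m * Dl d) := by rw [h4, neg_neg]
        rw [h6]
        simp only [Matrix.sub_mul, Matrix.mul_sub]
        abel
      rw [h5]
      have h6 : Z * m - m * Z ∈ nn N := by
        have h7 : Z * m - m * Z = ((Z - Dl d) * m - m * (Z - Dl d)) + (Dl d * m - m * Dl d) := by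
          simp only [Matrix.sub_mul, Matrix.mul_sub]
          abel
        rw [h7]
        refine (nn N).add_mem (nn_br hZ2 h1.1) ?_
        have h8 := FF_Dl hκ 0 (x := m) (by rw [FF_zero]; exact h1.1)
        rwa [FF_zero] at h8
      refine Submodule.add_mem_sup ((mmT T N).neg_mem ⟨h6, LL_br hZ1 h1.2⟩) (nn_br1 hZ2 h1.1)
    · exact Submodule.mem_sup_right (em_FF_add hκ (fun a b => by push_cast; ring) 1 h2)
  have hprN : ∀ s, pr d k (N s) = if κ s = k then N s else 0 := by
    intro s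
    ext b b'
    rw [pr_apply]
    split_ifs with h1 h2 h2
    · rfl
    · exact hκ s b b' (by omega)
    · exact (hκ s b b' (by omega)).symm
    · rfl
  obtain ⟨c, hc1, hc2, hc3, hc4⟩ := exists_fn (k := k) hVf hVg (hA s₀) (by rw [hprN, if_pos rfl]) hNV
  -- the number
  set φ := fn c with hφ
  have hφF : ∀ y ∈ FF N 1, φ y = 0 := fun y hy => hc3 y (Submodule.mem_sup_right hy)
  have hφm : ∀ y ∈ mmT T N, φ y = 0 := fun y hy => hc3 y (Submodule.mem_sup_left hy)
  have hzz : φ ell = ∑ s, φ (N s) * z s := by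
    have h1 := hφF _ hz
    rw [map_sub, map_sum, sub_eq_zero] at h1
    rw [h1]
    refine Finset.sum_congr rfl fun s _ => ?_
    rw [map_smul, smul_eq_mul, mul_comm]
  set γ := φ (Z - Dl d) with hγ
  have hγK : γ ∈ K := fn_K hc1 (hZ3.sub Dl_K)
  have hk0 : (k : ℂ) ≠ 0 := Nat.cast_ne_zero.2 (by omega)
  set y : ℂ := φ ell - γ / k * w ^ k with hy
  -- the derivations
  have hyD : ∀ D : Derivation K ℂ ℂ, D y = 0 := by
    intro D
    obtain ⟨v, h1, h2, h3⟩ := logd hT hA hN hκ hw0 hell hC D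
    have h4 : La d w * v * La d w⁻¹ ∈ nn N := by
      have h5 := La_FF hκ 0 hw0 (x := v) (by rw [FF_zero]; exact h1)
      rwa [FF_zero] at h5
    have h5 : La d w * v * La d w⁻¹ - (D w / w) • (Z - Dl d) ∈ mmT T N := by
      refine ⟨(nn N).sub_mem h4 ((nn N).smul_mem _ hZ2), ?_⟩
      have h6 := (LL T).sub_mem h3 ((LL T).smul_mem (D w / w) hZ1)
      rw [← fl_smul, ← fl_sub] at h6
      refine (congrArg (fun X => fl X ∈ LL T) ?_).mp h6
      rw [smul_sub]
      abel
    have h6 := hφm _ h5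
    rw [map_sub, map_smul, fn_La hc2 hw0, smul_eq_mul, ← hγ, sub_eq_zero] at h6
    have h7 : φ v = D (φ ell) := by
      have h8 := hφF _ h2
      rw [map_sub, sub_eq_zero] at h8
      rw [h8]
      exact fn_D hc1 D ell
    change (w ^ k)⁻¹ * φ v = D w / w * γ at h6
    rw [h7] at h6
    rw [hy, map_sub, Derivation.leibniz, Derivation.leibniz_pow]
    have h9 : D (γ / k) = 0 := D.map_algebraMap (⟨γ / k, K.div_mem hγK (natCast_mem K k)⟩ : K)
    have h10 : D (φ ell) = w ^ k * (D w / w * γ) := by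
      rw [← h6, mul_inv_cancel_left₀ (pow_ne_zero _ hw0)]
    obtain ⟨j, hj⟩ : ∃ j, k = j + 1 := ⟨k - 1, by omega⟩
    rw [h9, h10, smul_zero, add_zero, smul_eq_mul, nsmul_eq_mul, smul_eq_mul]
    rw [hj] at hk0 ⊢
    rw [Nat.add_sub_cancel]
    field_simp
    ring
  have hyalg : IsAlgebraic K y := alg_of_der hyD
  -- the automorphisms
  have hymem : y ∈ IntermediateField.adjoin K {w} := by
    by_contra hyn
    obtain ⟨σ, hσ1, hσ2⟩ := exists_move (F := (IntermediateField.adjoin K {w}).toSubfield) hyn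
    have hσK : ∀ x ∈ K, σ x = x := fun x hx => hσ1 x ((IntermediateField.adjoin K {w}).algebraMap_mem ⟨x, hx⟩)
    have hσw : σ w = w := hσ1 w (IntermediateField.mem_adjoin_simple_self K w)
    have hσell : ell.map σ ∈ nn N := nn_aut hA hell hσK
    have hell1 := nn_pos hN hell
    obtain ⟨m₀, h1, h2, h3⟩ := bch hN hκ hσell ((nn N).neg_mem hell)
    have h4 : La d w * m₀ * La d w⁻¹ ∈ nn N := by
      have h5 := La_FF hκ 0 hw0 (x := m₀) (by rw [FF_zero]; exact h1)
      rwa [FF_zero] at h5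
    have hCσ : (La d w * ex d ell).map σ = La d w * ex d (ell.map σ) := by
      have e1 : (La d w).map σ = La d w := by
        ext b b'
        unfold La
        rw [Matrix.map_apply, diagonal_apply]
        split_ifs
        · rw [map_pow, hσw]
        · exact map_zero σ
      have e2 : (ex d ell).map σ = ex d (ell.map σ) := by
        unfold ex ee
        ext b b'
        rw [Matrix.map_apply, Matrix.sum_apply, Matrix.sum_apply, map_sum]
        refine Finset.sum_congr rfl fun k _ => ?_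
        rw [Matrix.smul_apply, Matrix.smul_apply, smul_eq_mul, smul_eq_mul, map_mul, map_inv₀, map_natCast]
        congr 1
        have e3 : (ell ^ k).map σ = (ell.map σ) ^ k := by
          have := map_pow ((σ : ℂ →+* ℂ).mapMatrix (m := B)) ell k
          exact this
        rw [← e3]
        rfl
      have e3 : (La d w * ex d ell).map σ = (La d w).map σ * (ex d ell).map σ :=
        Matrix.map_mul (f := (σ : ℂ →+* ℂ))
      rw [e3, e1, e2]
    have h5 : ∀ x ∈ T, ex d (La d w * m₀ * La d w⁻¹) * x ∈ T := by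
      intro x hx
      have h6 := hT.torsor _ (aut_mem hT hσK hC) _ hC x hx
      rw [hCσ] at h6
      have h7 : (La d w * ex d ell)⁻¹ = ex d (-ell) * La d w⁻¹ := by
        refine Matrix.inv_eq_right_inv ?_
        rw [Matrix.mul_assoc, ← Matrix.mul_assoc (ex d ell), ex_mul_neg hell1, Matrix.one_mul, La_mul hw0]
      rw [h7] at h6
      have h8 : La d w * ex d (ell.map σ) * (ex d (-ell) * La d w⁻¹) =
          La d w * (ex d (ell.map σ) * ex d (-ell)) * La d w⁻¹ := by
        simp only [Matrix.mul_assoc]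
      rw [h8, h2, ← ex_conj hw0] at h6
      exact h6
    have h6 : La d w * m₀ * La d w⁻¹ ∈ mmT T N := ⟨h4, uni_mem (nn_pos hN h4) h5⟩
    have h7 := hφm _ h6
    rw [fn_La hc2 hw0] at h7
    have h8 : φ m₀ = 0 := (mul_eq_zero.1 h7).resolve_left (inv_ne_zero (pow_ne_zero _ hw0))
    have h9 := hφF _ h3
    rw [map_sub, h8, map_add, map_neg, zero_sub, neg_eq_zero] at h9
    have h10 : φ (ell.map σ) = σ (φ ell) := fn_aut hc1 hσK ell
    rw [h10] at h9
    apply hσ2
    rw [hy, map_sub, map_mul, map_pow, hσw, hσK _ (K.div_mem hγK (natCast_mem K k))]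
    linear_combination h9
  have hyK : y ∈ K := mem_of_adjoin hw hyalg hymem
  -- the contradiction
  have h1 := hI (fun s => φ (N s)) y (γ / k) (fun s => fn_K hc1 (hA s)) (fun s hs => by
    have h2 := fn_pr hc2 (N s)
    rw [hprN, if_neg hs, map_zero] at h2
    exact h2.symm) hyK (K.div_mem hγK (natCast_mem K k)) (by
    change ∑ s, φ (N s) * z s = _
    rw [← hzz, hy]
    ring)
  exact hc4 (congrFun h1 s₀)

/-- from the generators to the Lie algebra -/
theorem mm_full (h0 : ∀ s, ∃ m ∈ mmT T N, m - N s ∈ FF N 1) : mmT T N = nn N := by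
  have happ : ∀ k : ℕ, ∀ x ∈ qq N k, ∃ m ∈ mmT T N, m - x ∈ FF N (k + 1) := by
    intro k
    induction k with
    | zero =>
      intro x hx
      have h1 : x ∈ Submodule.span ℂ (Set.range N) := hx
      clear hx
      induction h1 using Submodule.span_induction with
      | mem x hx =>
        obtain ⟨s, rfl⟩ := hx
        exact h0 s
      | zero =>
        refine ⟨0, (mmT T N).zero_mem, ?_⟩
        rw [sub_zero]
        exact (FF N _).zero_mem
      | add x y _ _ h2 h3 =>
        obtain ⟨m, h4, h5⟩ := h2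
        obtain ⟨m', h6, h7⟩ := h3
        refine ⟨m + m', (mmT T N).add_mem h4 h6, (congrArg (· ∈ FF N (0 + 1)) ?_).mp ((FF N _).add_mem h5 h7)⟩
        abel
      | smul a x _ h2 =>
        obtain ⟨m, h4, h5⟩ := h2
        refine ⟨a • m, (mmT T N).smul_mem a h4, (congrArg (· ∈ FF N (0 + 1)) ?_).mp ((FF N _).smul_mem a h5)⟩
        rw [smul_sub]
    | succ k ih =>
      intro x hx
      have h1 : x ∈ Submodule.span ℂ {z | ∃ s, ∃ y ∈ qq N k, z = N s * y - y * N s} := hx
      clear hx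
      induction h1 using Submodule.span_induction with
      | mem x hx =>
        obtain ⟨s, y, hy, rfl⟩ := hx
        obtain ⟨m, h1, h2⟩ := h0 s
        obtain ⟨m', h3, h4⟩ := ih y hy
        refine ⟨m * m' - m' * m, mmT_br h1 h3, ?_⟩
        have h5 : m' ∈ FF N k := by
          have h6 := (FF N k).add_mem (FF_mono (Nat.le_succ k) h4) (qq_FF le_rfl hy)
          rwa [sub_add_cancel] at h6
        have h6 : (m - N s) * m' - m' * (m - N s) ∈ FF N (k + 1 + 1) := by
          have h7 := FF_br h2 h5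
          rwa [show 1 + k + 1 = k + 1 + 1 by omega] at h7
        have h7 : N s * (m' - y) - (m' - y) * N s ∈ FF N (k + 1 + 1) := by
          have h8 : N s ∈ FF N 0 := qq_FF le_rfl (Submodule.subset_span ⟨s, rfl⟩)
          have h9 := FF_br h8 h4
          rwa [show 0 + (k + 1) + 1 = k + 1 + 1 by omega] at h9
        refine (congrArg (· ∈ FF N (k + 1 + 1)) ?_).mp ((FF N _).add_mem h6 h7)
        simp only [Matrix.sub_mul, Matrix.mul_sub]
        abel
      | zero =>
        refine ⟨0, (mmT T N).zero_mem, ?_⟩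
        rw [sub_zero]
        exact (FF N _).zero_mem
      | add x y _ _ h2 h3 =>
        obtain ⟨m, h4, h5⟩ := h2
        obtain ⟨m', h6, h7⟩ := h3
        refine ⟨m + m', (mmT T N).add_mem h4 h6, (congrArg (· ∈ FF N (k + 1 + 1)) ?_).mp ((FF N _).add_mem h5 h7)⟩
        abel
      | smul a x _ h2 =>
        obtain ⟨m, h4, h5⟩ := h2
        refine ⟨a • m, (mmT T N).smul_mem a h4, (congrArg (· ∈ FF N (k + 1 + 1)) ?_).mp ((FF N _).smul_mem a h5)⟩
        rw [smul_sub]
  have key : ∀ e j : ℕ, top d ≤ j + 1 + e → ∀ x ∈ FF N j, x ∈ mmT T N := by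
    intro e
    induction e with
    | zero =>
      intro j hj x hx
      rw [FF_top hN hj hx]
      exact (mmT T N).zero_mem
    | succ e ih =>
      intro j hj x hx
      obtain ⟨y, h1, h2⟩ := FF_split j hx
      obtain ⟨m, h3, h4⟩ := happ j y h1
      have h5 : x - m ∈ FF N (j + 1) := by
        have h6 := (FF N (j + 1)).sub_mem h2 h4
        refine (congrArg (· ∈ FF N (j + 1)) ?_).mp h6
        abel
      have h6 := (mmT T N).add_mem (ih (j + 1) (by omega) _ h5) h3
      rwa [sub_add_cancel] at h6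
  apply le_antisymm
  · intro x hx
    exact hx.1
  · intro x hx
    refine key (top d) 0 (by omega) x ?_
    rw [FF_zero]
    exact hx

/-- the torsor -/
theorem torsor_full (hw : Transcendental K w) (h0 : mmT T N = nn N) {μ : ℂ} (hμ : μ ≠ 0) {n : Matrix B B ℂ}
    (hn : n ∈ nn N) : La d μ * ex d n ∈ T := by
  obtain ⟨Z, hZ1, hZ2, hZ3⟩ := exists_Z hT hA hN hκ hw0 hell hC hw
  have hell1 := nn_pos hN hell
  have hDl : fl (Dl d) ∈ LL T := by
    have h1 : Z - Dl d ∈ mmT T N := by
      rw [h0]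
      exact hZ2
    have h2 := (LL T).sub_mem hZ1 h1.2
    rw [← fl_sub, sub_sub_cancel] at h2
    exact h2
  obtain ⟨m₀, h1, h2, h3⟩ := bch hN hκ hn ((nn N).neg_mem hell)
  have h4 : La d w * m₀ * La d w⁻¹ ∈ mmT T N := by
    rw [h0]
    have h5 := La_FF hκ 0 hw0 (x := m₀) (by rw [FF_zero]; exact h1)
    rwa [FF_zero] at h5
  have h5 := ex_T hT (nn_pos hN h4.1) h4.2 hC
  have hLa' : La d w⁻¹ * La d w = 1 := by
    have := La_mul (d := d) (inv_ne_zero hw0)
    rwa [inv_inv] at this
  have h6 : ex d (-ell) * ex d ell = 1 := by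
    have h7 := ex_mul_neg ((Ge d 1).neg_mem hell1)
    rwa [neg_neg] at h7
  have h7 : ex d (La d w * m₀ * La d w⁻¹) * (La d w * ex d ell) = La d w * ex d n := by
    rw [ex_conj hw0, ← h2]
    have h8 : La d w * (ex d n * ex d (-ell)) * La d w⁻¹ * (La d w * ex d ell) =
        La d w * ex d n * (ex d (-ell) * ((La d w⁻¹ * La d w) * ex d ell)) := by
      simp only [Matrix.mul_assoc]
    rw [h8, hLa', Matrix.one_mul, h6, Matrix.mul_one]
  rw [h7] at h5
  have h8 := La_T hT hDl h5 (div_ne_zero hμ hw0)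
  have h9 : La d (μ / w) * (La d w * ex d n) = La d μ * ex d n := by
    rw [← Matrix.mul_assoc]
    congr 1
    unfold La
    rw [diagonal_mul_diagonal]
    congr 1
    funext b
    rw [← mul_pow, div_mul_cancel₀ _ hw0]
  rwa [h9] at h8

end data

end Pool.Agent.X306.MZ
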