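import Pool.Agent.X306.MT.Main
import Pool.Agent.X306.MZ.Bch

set_option autoImplicit false
set_option linter.unusedVariables false
set_option linter.unusedSectionVars false
set_option linter.unusedSimpArgs false

/-!
# Unipotent elements of the group of a subtorsor
-/

open Matrix

noncomputable section

namespace Pool.Agent.X306.MZ

open Pool.Agent.TH127.PT Pool.Agent.Y123.ST
open Pool.Agent.X306.MT
open Pool.Agent.X306.PL (path_mem eval_aeval)

variable {B : Type} [Fintype B] [DecidableEq B] {d : B → ℕ} {K : Subfield ℂ} {T : Set (Matrix B B ℂ)}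

theorem ex_nil {X : Matrix B B ℂ} (hX : X ∈ Ge d 1) : ex d X = IsNilpotent.exp X := by
  rw [IsNilpotent.exp_eq_sum (pow_top hX)]
  unfold ex ee
  refine Finset.sum_congr rfl fun k _ => ?_
  ext b b'
  rw [Matrix.smul_apply, Matrix.smul_apply, smul_eq_mul, Rat.smul_def]
  push_cast
  rfl

theorem ex_add {X : Matrix B B ℂ} (hX : X ∈ Ge d 1) (a b : ℂ) : ex d ((a + b) • X) = ex d (a • X) * ex d (b • X) := by
  rw [ex_nil ((Ge d 1).smul_mem _ hX), ex_nil ((Ge d 1).smul_mem _ hX), ex_nil ((Ge d 1).smul_mem _ hX), add_smul]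
  refine IsNilpotent.exp_add_of_commute ?_ ⟨_, pow_top ((Ge d 1).smul_mem _ hX)⟩ ⟨_, pow_top ((Ge d 1).smul_mem _ hX)⟩
  exact ((Commute.refl X).smul_left a).smul_right b

theorem ex_zero : ex d (0 : Matrix B B ℂ) = 1 := by
  unfold ex
  rw [Finset.sum_eq_single 0]
  · exact ee_zero _
  · intro k _ hk
    unfold ee
    rw [zero_pow hk, smul_zero]
  · intro h
    exact absurd (Finset.mem_range.2 (Nat.succ_pos _)) h

/-- **Unipotent elements of the group have their logarithm in the Lie algebra.** -/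
theorem uni_mem {m : Matrix B B ℂ} (hm : m ∈ Ge d 1) (h : ∀ x ∈ T, ex d m * x ∈ T) : fl m ∈ LL T := by
  intro P hP x hx
  rw [um_fl]
  have h1 : ∀ n : ℕ, ex d ((n : ℂ) • m) * x ∈ T := by
    intro n
    induction n with
    | zero =>
      rw [Nat.cast_zero, zero_smul, ex_zero, Matrix.one_mul]
      exact hx
    | succ n ih =>
      rw [Nat.cast_succ, add_comm, ex_add hm, one_smul, Matrix.mul_assoc]
      exact h _ ih
  obtain ⟨k₀, hk₀⟩ : ∃ k₀, top d = k₀ + 1 := ⟨top d - 1, by
    have : 0 < top d := Nat.succ_pos _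
    omega⟩
  let G : B × B → Polynomial ℂ := fun b =>
    ∑ k ∈ Finset.range (top d + 1), Polynomial.C ((ee m k * x) b.1 b.2) * Polynomial.X ^ k
  have hG : ∀ a : ℂ, (fun b => Polynomial.eval a (G b)) = fl (ex d (a • m) * x) := by
    intro a
    funext b
    change Polynomial.eval a (∑ k ∈ Finset.range (top d + 1), Polynomial.C ((ee m k * x) b.1 b.2) * Polynomial.X ^ k) =
      (ex d (a • m) * x) b.1 b.2
    unfold ex
    rw [Polynomial.eval_finset_sum, Finset.sum_mul, Matrix.sum_apply, Finset.sum_range_succ]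
    have h2 : ee m (top d) = 0 := ee_top hm le_rfl
    rw [h2, Matrix.zero_mul, Matrix.zero_apply, map_zero, zero_mul, Polynomial.eval_zero, add_zero]
    refine Finset.sum_congr rfl fun k _ => ?_
    rw [Polynomial.eval_mul, Polynomial.eval_C, Polynomial.eval_pow, Polynomial.eval_X]
    unfold ee
    rw [smul_pow, Matrix.smul_mul, Matrix.smul_mul, Matrix.smul_mul, Matrix.smul_apply, Matrix.smul_apply,
      Matrix.smul_apply, smul_eq_mul, smul_eq_mul, smul_eq_mul]
    ring
  have h2 : MvPolynomial.aeval G P = 0 := by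
    refine Polynomial.eq_zero_of_infinite_isRoot _ ?_
    refine Set.Infinite.mono ?_ (Set.infinite_range_of_injective (Nat.cast_injective (R := ℂ)))
    rintro _ ⟨n, rfl⟩
    change Polynomial.eval (n : ℂ) (MvPolynomial.aeval G P) = 0
    rw [eval_aeval, hG]
    exact hP _ (h1 n)
  have h3 := congrArg (fun p => Polynomial.eval 0 (Polynomial.derivative p)) h2
  simp only [Polynomial.derivative_zero, Polynomial.eval_zero] at h3
  rw [deriv_aeval, Polynomial.eval_finset_sum] at h3
  unfold dd
  rw [← h3]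
  refine Finset.sum_congr rfl fun b _ => ?_
  rw [Polynomial.eval_mul, eval_aeval, hG, zero_smul, ex_zero, Matrix.one_mul]
  congr 1
  change (m * x) b.1 b.2 = Polynomial.eval 0 (Polynomial.derivative
    (∑ k ∈ Finset.range (top d + 1), Polynomial.C ((ee m k * x) b.1 b.2) * Polynomial.X ^ k))
  rw [Polynomial.derivative_sum, Polynomial.eval_finset_sum, Finset.sum_eq_single 1]
  · rw [Polynomial.derivative_C_mul_X_pow]
    unfold ee
    simp
  · intro k _ hk
    rw [Polynomial.derivative_C_mul_X_pow, Polynomial.eval_mul, Polynomial.eval_pow, Polynomial.eval_X]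
    rcases k with _ | k
    · simp
    · rcases k with _ | k
      · exact absurd rfl hk
      · rw [zero_pow (by omega), mul_zero]
  · intro h
    exact absurd (Finset.mem_range.2 (by omega)) h

/-- the path given by the degree operator -/
def GD (d : B → ℕ) (x : Matrix B B ℂ) : Matrix B B (Polynomial ℂ) :=
  Matrix.of fun i j => Polynomial.C (x i j) * Polynomial.X ^ d i

theorem GD_apply (x : Matrix B B ℂ) (i j : B) : GD d x i j = Polynomial.C (x i j) * Polynomial.X ^ d i := rfl

theorem GD_eval (x : Matrix B B ℂ) (a : ℂ) : (GD d x).map (Polynomial.eval a) = La d a * x := by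
  ext i j
  unfold La
  rw [diagonal_mul, Matrix.map_apply, GD_apply, Polynomial.eval_mul, Polynomial.eval_C, Polynomial.eval_pow,
    Polynomial.eval_X, mul_comm]

theorem GD_der (x : Matrix B B ℂ) (i j : B) : Polynomial.X * Polynomial.derivative (GD d x i j) =
    ∑ k, Polynomial.C (Dl d i k) * GD d x k j := by
  rw [Finset.sum_eq_single i]
  · unfold Dl
    rw [diagonal_apply_eq, GD_apply, Polynomial.derivative_C_mul_X_pow]
    rcases h2 : d i with _ | k
    · simp
    · rw [Nat.add_sub_cancel, map_mul, pow_succ]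
      ring
  · intro k _ hk
    unfold Dl
    rw [diagonal_apply_ne _ (Ne.symm hk), map_zero, zero_mul]
  · intro h
    exact absurd (Finset.mem_univ _) h

theorem La_one : La d (1 : ℂ) = 1 := by
  unfold La
  simp only [one_pow]
  exact diagonal_one

/-- the degree operator -/
theorem La_T (hT : IsSubtorsor K T) (hD : fl (Dl d) ∈ LL T) {x : Matrix B B ℂ} (hx : x ∈ T) {s : ℂ} (hs : s ≠ 0) :
    La d s * x ∈ T := by
  rw [← GD_eval]
  have h0 : (GD d x).map (Polynomial.eval 1) ∈ T := by
    rw [GD_eval, La_one, Matrix.one_mul]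
    exact hx
  have h1 : (Polynomial.X : Polynomial ℂ).eval 1 ≠ 0 := by
    rw [Polynomial.eval_X]
    exact one_ne_zero
  refine path_mem hT hD Polynomial.X h1 (GD d x) (GD_der x) h0 ?_
  rw [GD_eval]
  exact IsUnit.mul (IsUnit.of_mul_eq_one _ (La_mul hs)) (hT.isUnit x hx)

/-- exponentials -/
theorem ex_T (hT : IsSubtorsor K T) {m : Matrix B B ℂ} (hm : m ∈ Ge d 1) (hD : fl m ∈ LL T) {x : Matrix B B ℂ}
    (hx : x ∈ T) : ex d m * x ∈ T := by
  obtain ⟨k₀, hk₀⟩ : ∃ k₀, top d = k₀ + 1 := ⟨top d - 1, by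
    have : 0 < top d := Nat.succ_pos _
    omega⟩
  have h1 := exp_mem hT hD (m := k₀) (by rw [← hk₀]; exact ee_top hm le_rfl) hx (by
    refine IsUnit.mul ?_ (hT.isUnit x hx)
    rw [← hk₀]
    exact IsUnit.of_mul_eq_one _ (ex_mul_neg hm))
  rw [← hk₀] at h1
  exact h1

end Pool.Agent.X306.MZ
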